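import Pool.Agent.MP_3d716e_an.H63.Num

/-! Algebraic consequences of the numerical inequalities. -/

set_option autoImplicit false

namespace Pool.Agent.MP_3d716e_an.H63

noncomputable def aE (L l s v h Y W : ℝ) : ℝ := h ^ 2 + 4 * L * s * v ^ 2 - 4 * s * W ^ 2 - l * Y ^ 2
noncomputable def aN (L l s v h Y W : ℝ) : ℝ := 2 * v * h + 2 * Y * W - aE L l s v h Y W
noncomputable def aD (s u v h : ℝ) : ℝ := 4 * s * v ^ 2 - u * (h - 2 * v)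

structure Ineq (L l s u v h Y W : ℝ) : Prop where
  u0 : 0 < u
  v0 : v < 0
  Y0 : 0 < Y
  D0 : 0 < aD s u v h
  uv : u ≤ -(1 - s) * v
  g : 16 * s * (u * W - v * Y) ^ 2 ≤ (4 - (1 - s) ^ 2) * aD s u v h ^ 2
  k : |4 * v * (aD s u v h + s * aN L l s v h Y W) + u * aE L l s v h Y W| ≤
    (1 - s) * (-2 * v * aD s u v h)
  p : |aE L l s v h Y W - 4 * h * v| ≤ 20 * (-2 * v * u)
  q : |aN L l s v h Y W + 4 * v ^ 2| ≤ -4 * v * u
  y : |4 * s * v * W - Y * (h - 2 * v)| ≤ 10 * aD s u v h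

namespace Dat

variable (w : Dat)

lemma iD : aD (1 - w.η) (w.η ^ 2 * w.uu) (-w.η * w.vv) (1 - w.L * (w.η ^ 2 * w.uu)) =
    w.η ^ 2 * w.D := by
  simp only [aD, D, D2, e2, s, V2, G2, uu, uu1, vv, vv1]; ring

lemma iK : w.η ^ 2 * w.uu * -w.ww - -w.η * w.vv * (w.η * w.yy) =
    -w.η ^ 2 * (-1 / 16 - w.η / 12 + w.η ^ 2 * w.K2) := by
  simp only [K2, uu, uu1, vv, vv1, ww, ww1, yy, yy1]; ring

lemma iR : w.D ^ 2 - 4 * (1 - w.η) * (-1 / 16 - w.η / 12 + w.η ^ 2 * w.K2) ^ 2 = w.η ^ 2 * w.R := by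
  simp only [R, DD, KK, D, e2, s]; ring

lemma iE : aE w.L w.l (1 - w.η) (-w.η * w.vv) (1 - w.L * (w.η ^ 2 * w.uu)) (w.η * w.yy) (-w.ww) =
    -w.η - w.η ^ 2 + w.η ^ 3 * w.E3 := by
  simp only [aE, E3, WW3, s, uu, vv, ww, ww1, w2, yy, yy1, vv1, uu1]; ring

lemma iN : aN w.L w.l (1 - w.η) (-w.η * w.vv) (1 - w.L * (w.η ^ 2 * w.uu)) (w.η * w.yy) (-w.ww) =
    -w.η ^ 2 / 4 + w.η ^ 3 * w.n3 := by
  rw [aN, iE]
  simp only [n3, X, vv, vv1, ww, ww1, yy, yy1]; ring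

theorem ineq (h : w.Ok) (h0 : 0 < w.η) : Ineq w.L w.l (1 - w.η) (w.η ^ 2 * w.uu) (-w.η * w.vv)
    (1 - w.L * (w.η ^ 2 * w.uu)) (w.η * w.yy) (-w.ww) := by
  obtain ⟨h1, h2, h3, h4, h5, h6, h7, h8, h9, h10, h11, h12, h13⟩ := w.num h
  have p2 := pow_pos h0 2
  have p3 := pow_pos h0 3
  have p4 := pow_pos h0 4
  have p6 := pow_pos h0 6
  refine ⟨by positivity, by nlinarith, by positivity, by rw [iD]; positivity, by nlinarith,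
    ?_, ?_, ?_, ?_, ?_⟩
  · rw [iD, iK]
    have e := w.iR
    have : (4 - (1 - (1 - w.η)) ^ 2) * (w.η ^ 2 * w.D) ^ 2 - 16 * (1 - w.η) *
        (-w.η ^ 2 * (-1 / 16 - w.η / 12 + w.η ^ 2 * w.K2)) ^ 2 =
        w.η ^ 6 * (4 * w.R - w.D * w.D) := by linear_combination 4 * w.η ^ 4 * e
    nlinarith [mul_pos p6 h5]
  · rw [iD, iN, iE]
    have e : 4 * (-w.η * w.vv) * (w.η ^ 2 * w.D + (1 - w.η) * (-w.η ^ 2 / 4 + w.η ^ 3 * w.n3)) +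
        w.η ^ 2 * w.uu * (-w.η - w.η ^ 2 + w.η ^ 3 * w.E3) = w.η ^ 4 * w.N4 := by
      simp only [N4, S1, D, e2, s, uu, vv]; ring
    rw [e, abs_le]
    unfold vD at h6 h7
    constructor <;> nlinarith [mul_pos p4 h6, mul_pos p4 h7]
  · rw [iE]
    have e : -w.η - w.η ^ 2 + w.η ^ 3 * w.E3 - 4 * (1 - w.L * (w.η ^ 2 * w.uu)) * (-w.η * w.vv) =
        w.η ^ 3 * w.M3 := by
      simp only [M3, X, vv, vv1]; ring
    rw [e, abs_le]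
    unfold vu at h8 h9
    constructor <;> nlinarith [mul_pos p3 h8, mul_pos p3 h9]
  · rw [iN]
    have e : -w.η ^ 2 / 4 + w.η ^ 3 * w.n3 + 4 * (-w.η * w.vv) ^ 2 = w.η ^ 3 * w.M4 := by
      simp only [M4, vv]; ring
    rw [e, abs_le]
    unfold vu at h10 h11
    constructor <;> nlinarith [mul_pos p3 h10, mul_pos p3 h11]
  · rw [iD]
    have e : 4 * (1 - w.η) * (-w.η * w.vv) * -w.ww - w.η * w.yy *
        (1 - w.L * (w.η ^ 2 * w.uu) - 2 * (-w.η * w.vv)) = w.η ^ 2 * w.M5 := by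
      simp only [M5, vv, ww, yy]; ring
    rw [e, abs_le]
    constructor <;> nlinarith [mul_pos p2 h12, mul_pos p2 h13]

end Dat

lemma quad_nonneg {g k e a c B : ℝ} (he0 : 0 < e) (he : e ≤ 1) (hg : e ^ 2 ≤ 4 * (1 - g))
    (hk : |k| ≤ e) : 0 ≤ (1 - g) * a ^ 2 + k * a * c + c ^ 2 + (2 - k - g) * B ^ 2 := by
  have h1 := abs_le.1 hk
  have h2 : k ^ 2 ≤ e ^ 2 := sq_le_sq' h1.1 h1.2
  have h3 : 0 ≤ (2 - k - g) * B ^ 2 := mul_nonneg (by nlinarith) (sq_nonneg B)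
  have h4 : 0 ≤ (1 - g - k ^ 2 / 4) * a ^ 2 := mul_nonneg (by linarith) (sq_nonneg a)
  nlinarith [sq_nonneg (c + k * a / 2)]

end Pool.Agent.MP_3d716e_an.H63
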