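import Mathlib

/-! The entire functions `F n x = ∑ (-x/4)^k / (k! (k+n)!)`, so that `F 0 (t^2) = J_0 t` and
`(t/2) F 1 (t^2) = J_1 t`. -/

set_option autoImplicit false
open Set Real Filter Topology

namespace Pool.Agent.MP_3d716e_an.H63

noncomputable def F (n : ℕ) (x : ℝ) : ℝ :=
  ∑' k : ℕ, (-x / 4) ^ k / ((k.factorial : ℝ) * ((k + n).factorial : ℝ))

lemma term_le (n k : ℕ) {x R : ℝ} (hx : |x| ≤ R) :
    ‖(-x / 4) ^ k / ((k.factorial : ℝ) * ((k + n).factorial : ℝ))‖ ≤
      (R / 4) ^ k / k.factorial / n.factorial := by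
  have h1 : (0 : ℝ) < k.factorial := by exact_mod_cast k.factorial_pos
  have h2 : (0 : ℝ) < n.factorial := by exact_mod_cast n.factorial_pos
  have h3 : (n.factorial : ℝ) ≤ (k + n).factorial := by
    exact_mod_cast Nat.factorial_le (Nat.le_add_left n k)
  have hR : 0 ≤ R := (abs_nonneg x).trans hx
  rw [Real.norm_eq_abs, abs_div, abs_pow, abs_of_pos (by positivity : (0 : ℝ) < k.factorial * (k + n).factorial), div_div]
  have h4 : |-x / 4| ≤ R / 4 := by rw [abs_div, abs_neg]; norm_num; linarith
  gcongr

lemma summable_term (n : ℕ) (x : ℝ) :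
    Summable fun k : ℕ => (-x / 4) ^ k / ((k.factorial : ℝ) * ((k + n).factorial : ℝ)) :=
  Summable.of_norm_bounded ((Real.summable_pow_div_factorial (|x| / 4)).div_const n.factorial)
    fun k => term_le n k le_rfl

lemma abs_F_le (n : ℕ) {x R : ℝ} (hx : |x| ≤ R) : |F n x| ≤ exp (R / 4) / n.factorial := by
  have h := tsum_of_norm_bounded
    ((NormedSpace.expSeries_div_hasSum_exp (R / 4)).div_const (n.factorial : ℝ))
    (fun k => term_le n k hx)
  rw [Real.exp_eq_exp_ℝ]
  exact h

lemma F_zero (n : ℕ) : F n 0 = 1 / n.factorial := by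
  unfold F
  rw [tsum_eq_single 0]
  · simp
  · intro k hk
    simp [hk]

lemma F_rec (n : ℕ) (x : ℝ) : F n x = (n + 1) * F (n + 1) x - x / 4 * F (n + 2) x := by
  have s1 := (summable_term (n + 1) x).hasSum.mul_left ((n : ℝ) + 1)
  have s2 := (summable_term (n + 2) x).hasSum.mul_left (-x / 4)
  have s3 : HasSum (fun k : ℕ => (k : ℝ) * ((-x / 4) ^ k /
      ((k.factorial : ℝ) * ((k + (n + 1)).factorial : ℝ)))) (-x / 4 * F (n + 2) x) := by
    rw [← hasSum_nat_add_iff' 1]
    simp only [Finset.range_one, Finset.sum_singleton, Nat.cast_zero, zero_mul, sub_zero]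
    refine (congrArg (fun g => HasSum g (-x / 4 * F (n + 2) x)) (funext fun k => ?_)).mpr s2
    have h1 : (0 : ℝ) < k.factorial := by exact_mod_cast k.factorial_pos
    have h2 : (0 : ℝ) < (k + (n + 2)).factorial := by exact_mod_cast (k + (n + 2)).factorial_pos
    rw [show k + 1 + (n + 1) = k + (n + 2) by ring, Nat.factorial_succ k]
    push_cast
    field_simp
    ring
  have s4 := s1.add s3
  have s5 : HasSum (fun k : ℕ => (-x / 4) ^ k / ((k.factorial : ℝ) * ((k + n).factorial : ℝ)))
      ((n + 1) * F (n + 1) x + -x / 4 * F (n + 2) x) := by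
    refine (congrArg (fun g => HasSum g ((n + 1) * F (n + 1) x + -x / 4 * F (n + 2) x))
      (funext fun k => ?_)).mpr s4
    have h1 : (0 : ℝ) < k.factorial := by exact_mod_cast k.factorial_pos
    have h2 : (0 : ℝ) < (k + n).factorial := by exact_mod_cast (k + n).factorial_pos
    rw [show k + (n + 1) = (k + n) + 1 by ring, Nat.factorial_succ (k + n)]
    push_cast
    field_simp
    ring
  rw [show F n x = _ from s5.tsum_eq]
  ring

lemma hasDerivAt_F (n : ℕ) (x : ℝ) : HasDerivAt (F n) (-(1 / 4) * F (n + 1) x) x := by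
  set R := |x| + 1 with hR
  have hR0 : 0 < R := by positivity
  let g : ℕ → ℝ → ℝ := fun k y => (-y / 4) ^ k / ((k.factorial : ℝ) * ((k + n).factorial : ℝ))
  let g' : ℕ → ℝ → ℝ := fun k y => (k : ℝ) * (-y / 4) ^ (k - 1) * (-1 / 4) /
    ((k.factorial : ℝ) * ((k + n).factorial : ℝ))
  have hg' : ∀ k y, g' (k + 1) y = -(1 / 4) * ((-y / 4) ^ k /
      ((k.factorial : ℝ) * ((k + (n + 1)).factorial : ℝ))) := fun k y => by
    have h1 : (0 : ℝ) < k.factorial := by exact_mod_cast k.factorial_pos
    have h2 : (0 : ℝ) < (k + (n + 1)).factorial := by exact_mod_cast (k + (n + 1)).factorial_pos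
    simp only [g']
    rw [show k + 1 + n = k + (n + 1) by ring, Nat.factorial_succ k]
    push_cast
    field_simp
  let u : ℕ → ℝ := fun k => match k with
    | 0 => 0
    | k + 1 => (R / 4) ^ k / k.factorial / (n + 1).factorial
  have hu : Summable u := by
    rw [← summable_nat_add_iff 1]
    exact (Real.summable_pow_div_factorial (R / 4)).div_const _
  have h := hasDerivAt_tsum_of_isPreconnected (g := g) (g' := g') (t := Ioo (-R) R) (y₀ := x) (y := x) hu
    isOpen_Ioo isPreconnected_Ioo
    (fun k y _ => by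
      have := ((hasDerivAt_id y).neg.div_const 4).pow k |>.div_const
        ((k.factorial : ℝ) * ((k + n).factorial : ℝ))
      simpa [g, g'] using this)
    (fun k y hy => by
      rcases k with _ | k
      · simp [g', u]
      · rw [hg', norm_mul]
        have := term_le (n + 1) k (x := y) (R := R) (abs_le.2 ⟨hy.1.le, hy.2.le⟩)
        have h0 := norm_nonneg ((-y / 4) ^ k / ((k.factorial : ℝ) * ((k + (n + 1)).factorial : ℝ)))
        have e : ‖(-(1 / 4) : ℝ)‖ = 1 / 4 := by norm_num
        rw [e]
        simp only [u]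
        linarith)
    (by rw [mem_Ioo, ← abs_lt]; linarith) (summable_term n x) (by rw [mem_Ioo, ← abs_lt]; linarith)
  have e : ∑' k, g' k x = -(1 / 4) * F (n + 1) x := by
    have s := (summable_term (n + 1) x).hasSum.mul_left (-(1 / 4) : ℝ)
    have s2 : HasSum (fun k => g' k x) (-(1 / 4) * F (n + 1) x) := by
      rw [← hasSum_nat_add_iff' 1]
      simp only [Finset.range_one, Finset.sum_singleton]
      have : g' 0 x = 0 := by simp [g']
      rw [this, sub_zero]
      simp only [hg']
      exact s
    exact s2.tsum_eq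
  rw [← e]
  exact h

lemma contDiff_F_nat (m : ℕ) : ∀ n, ContDiff ℝ m (F n) := by
  induction m with
  | zero => intro n; exact contDiff_zero.2 (continuous_iff_continuousAt.2 fun x =>
      (hasDerivAt_F n x).continuousAt)
  | succ m ih =>
    intro n
    rw [show ((m + 1 : ℕ) : WithTop ℕ∞) = m + 1 by push_cast; rfl, contDiff_succ_iff_deriv]
    refine ⟨fun x => (hasDerivAt_F n x).differentiableAt, by simp, ?_⟩
    have : deriv (F n) = fun x => -(1 / 4) * F (n + 1) x := funext fun x => (hasDerivAt_F n x).deriv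
    rw [this]
    exact contDiff_const.mul (ih (n + 1))

lemma contDiff_F (n : ℕ) : ContDiff ℝ (⊤ : ℕ∞) (F n) := contDiff_infty.2 fun m => contDiff_F_nat m n

lemma continuous_F (n : ℕ) : Continuous (F n) := (contDiff_F n).continuous

lemma taylor_aux (N : ℕ) {x0 R e : ℝ} (he : |e| = 1) (h0 : |x0| ≤ R) :
    ∀ (n : ℕ) (y : ℝ), 0 ≤ y → |x0 - e * y| ≤ R →
    |F n (x0 - e * y) - ∑ m ∈ Finset.range N, e ^ m * ((y / 4) ^ m / m.factorial) * F (n + m) x0| ≤
      (y / 4) ^ N / N.factorial * (exp (R / 4) / (n + N).factorial) := by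
  induction N with
  | zero => intro n y _ hy; simpa using abs_F_le n hy
  | succ N ih =>
    intro n y hy0 hy
    set M := exp (R / 4) / ((n + (N + 1)).factorial : ℝ) with hM
    let g : ℝ → ℝ := fun t => F n (x0 - e * t) -
      ∑ m ∈ Finset.range (N + 1), e ^ m * ((t / 4) ^ m / m.factorial) * F (n + m) x0
    let g' : ℝ → ℝ := fun t => e * (1 / 4) * (F (n + 1) (x0 - e * t) -
      ∑ m ∈ Finset.range N, e ^ m * ((t / 4) ^ m / m.factorial) * F (n + 1 + m) x0)
    have hp : ∀ (m : ℕ) (t : ℝ), HasDerivAt (fun t : ℝ => (t / 4) ^ (m + 1) / (m + 1).factorial)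
        (1 / 4 * ((t / 4) ^ m / m.factorial)) t := fun m t => by
      have h := (((hasDerivAt_id t).div_const 4).pow (m + 1)).div_const ((m + 1).factorial : ℝ)
      have h1 : (0 : ℝ) < m.factorial := by exact_mod_cast m.factorial_pos
      refine h.congr_deriv ?_
      rw [Nat.factorial_succ]
      push_cast
      simp only [id]
      field_simp
    have hg : ∀ t, HasDerivAt g (g' t) t := fun t => by
      have h1 : HasDerivAt (fun t => F n (x0 - e * t)) (e * (1 / 4) * F (n + 1) (x0 - e * t)) t := by
        have := (hasDerivAt_F n (x0 - e * t)).comp t (((hasDerivAt_id t).const_mul e).const_sub x0)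
        exact this.congr_deriv (by ring)
      have h2 : HasDerivAt (fun t : ℝ => ∑ m ∈ Finset.range (N + 1),
          e ^ m * ((t / 4) ^ m / m.factorial) * F (n + m) x0)
          (∑ m ∈ Finset.range N, e ^ (m + 1) * (1 / 4 * ((t / 4) ^ m / m.factorial)) *
            F (n + 1 + m) x0) t := by
        simp only [Finset.sum_range_succ']
        have := (HasDerivAt.fun_sum (u := Finset.range N) fun m _ =>
          ((hp m t).const_mul (e ^ (m + 1))).mul_const (F (n + (m + 1)) x0)).add_const
            (e ^ 0 * ((0 : ℝ) ^ 0 / (0 : ℕ).factorial) * F (n + 0) x0)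
        simp only [show ∀ m, n + 1 + m = n + (m + 1) from fun m => by ring]
        simpa using this
      refine (h1.sub h2).congr_deriv ?_
      simp only [g', mul_sub, Finset.mul_sum]
      congr 1
      exact Finset.sum_congr rfl fun m _ => by ring
    have hb : ∀ t, 0 ≤ t → t ≤ y → |g' t| ≤ 1 / 4 * ((t / 4) ^ N / N.factorial) * M :=
      fun t h1 h2 => by
      have h3 : |x0 - e * t| ≤ R := by
        rw [abs_le] at h0 hy ⊢
        rcases eq_or_eq_neg_of_abs_eq he with rfl | rfl
        · constructor <;> linarith [h0.1, h0.2, hy.1, hy.2]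
        · constructor <;> linarith [h0.1, h0.2, hy.1, hy.2]
      have := ih (n + 1) t h1 h3
      rw [show n + 1 + N = n + (N + 1) by ring, ← hM] at this
      simp only [g']
      rw [abs_mul, abs_mul, he, abs_of_pos (by norm_num : (0 : ℝ) < 1 / 4)]
      linarith
    have g0 : g 0 = 0 := by simp [g, Finset.sum_range_succ']
    have key : ∀ c : ℝ, |c| = 1 → c * g y ≤ (y / 4) ^ (N + 1) / (N + 1).factorial * M :=
      fun c hc => by
      have hm : MonotoneOn (fun t => (t / 4) ^ (N + 1) / (N + 1).factorial * M - c * g t)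
          (Icc 0 y) := by
        have hd : ∀ t, HasDerivAt (fun t => (t / 4) ^ (N + 1) / (N + 1).factorial * M - c * g t)
            (1 / 4 * ((t / 4) ^ N / N.factorial) * M - c * g' t) t := fun t =>
          ((hp N t).mul_const M).sub ((hg t).const_mul c)
        refine monotoneOn_of_deriv_nonneg (convex_Icc 0 y)
          (fun t _ => (hd t).continuousAt.continuousWithinAt)
          (fun t _ => (hd t).differentiableAt.differentiableWithinAt) fun t ht => ?_
        rw [interior_Icc] at ht
        rw [(hd t).deriv]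
        have h1 := hb t ht.1.le ht.2.le
        have h2 : c * g' t ≤ |g' t| := by
          calc _ ≤ |c * g' t| := le_abs_self _
            _ = _ := by rw [abs_mul, hc, one_mul]
        linarith
      have := hm (left_mem_Icc.2 hy0) (right_mem_Icc.2 hy0) hy0
      simp only [g0] at this
      simp at this
      simpa using this
    have k1 := key 1 (by simp)
    have k2 := key (-1) (by simp)
    change |g y| ≤ _
    rw [abs_le]
    constructor <;> linarith

/-- Taylor expansion at `x0` with an explicit remainder. -/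
lemma taylor_F (N n : ℕ) {x0 y R : ℝ} (h0 : |x0| ≤ R) (hy : |x0 - y| ≤ R) :
    |F n (x0 - y) - ∑ m ∈ Finset.range N, (y / 4) ^ m / m.factorial * F (n + m) x0| ≤
      (|y| / 4) ^ N / N.factorial * (exp (R / 4) / (n + N).factorial) := by
  rcases le_total 0 y with h | h
  · have := taylor_aux N (e := 1) (by simp) h0 n y h (by simpa using hy)
    simpa [abs_of_nonneg h] using this
  · have := taylor_aux N (e := -1) (by simp) h0 n (-y) (by linarith) (by simpa using hy)
    rw [abs_of_nonpos h]
    have e1 : ∀ m : ℕ, (-1 : ℝ) ^ m * ((-y / 4) ^ m / m.factorial) = (y / 4) ^ m / m.factorial :=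
      fun m => by rw [← mul_div_assoc, ← mul_pow]; congr 2; ring
    simpa only [e1, neg_mul, one_mul, neg_neg] using this

end Pool.Agent.MP_3d716e_an.H63
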