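import Mathlib

/-! The algebraic identity behind the calibration, and inverse functions in one variable. -/

set_option autoImplicit false
open Set Filter Topology

namespace Pool.Agent.MP_3d716e_an.H63

lemma key_id {u v h Y W E D s z y1 y0 φ p ψ q : ℝ} (hu : u ≠ 0) (hv : v ≠ 0) (hD : D ≠ 0)
    (hs : D = 4 * s * v ^ 2 - u * (h - 2 * v)) (hz : z = 4 * s * v ^ 2 / u ^ 2)
    (hy1 : y1 = -(W * u - Y * v) * u / (2 * v * D))
    (hy0 : y0 = (4 * s * v * W - Y * (h - 2 * v)) / D)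
    (hφ : φ = (E / (2 * v) - 2 * h) / u)
    (hp : p = -2 * v * ((2 * s * W ^ 2 / v - E * (h - 4 * v) / (8 * v ^ 2)) * u -
      s * (E / (2 * v) - 2 * h) * v) / (u * D))
    (hψ : ψ = (2 * v * h + 2 * Y * W - E) / (4 * v ^ 2) + 1)
    (hq : 2 * ψ + 2 * q = (4 * v * (D + s * (2 * v * h + 2 * Y * W - E)) + u * E) / (2 * v * D))
    (A B C : ℝ) :
    (A + C) ^ 2 - 2 * (A * C - B ^ 2) - (E - h ^ 2 + 4 * s * W ^ 2) / u ^ 2
      + (φ * (A + C) + (φ - 2 * p) * z + 2 * p * A)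
      + ((2 * ψ + 2 * q) * (A * C - B ^ 2) - 2 * q * (z * C))
      - (y0 ^ 2 * z + 4 * y0 * y1 * (z * A) + 4 * y1 ^ 2 * (z * (A ^ 2 + B ^ 2))) =
    (1 - 4 * z * y1 ^ 2) * (A - (h - 2 * v) / u) ^ 2
      + (2 * ψ + 2 * q) * (A - (h - 2 * v) / u) * (C - 2 * v / u) + (C - 2 * v / u) ^ 2
      + (2 - (2 * ψ + 2 * q) - 4 * z * y1 ^ 2) * B ^ 2 := by
  obtain ⟨k, hk⟩ : ∃ k, k = 2 * ψ + 2 * q := ⟨_, rfl⟩
  have hq' : q = k / 2 - ψ := by linarith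
  rw [← hk] at hq ⊢
  have hs' : s = (D + u * (h - 2 * v)) / (4 * v ^ 2) := by rw [hs]; field_simp; ring
  have hz' : z = (D + u * (h - 2 * v)) / u ^ 2 := by rw [hz, hs]; ring
  have e1 : φ + 2 * p - 4 * y0 * y1 * z =
      -2 * (1 - 4 * z * y1 ^ 2) * ((h - 2 * v) / u) - k * (2 * v / u) := by
    rw [hq, hφ, hp, hy0, hy1, hz', hs']; field_simp; ring
  have e2 : φ - 2 * q * z = -k * ((h - 2 * v) / u) - 2 * (2 * v / u) := by
    rw [hq', hq, hφ, hψ, hz', hs']; field_simp; ring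
  have e3 : -((E - h ^ 2 + 4 * s * W ^ 2) / u ^ 2) + (φ - 2 * p) * z - y0 ^ 2 * z =
      (1 - 4 * z * y1 ^ 2) * ((h - 2 * v) / u) ^ 2 + k * ((h - 2 * v) / u) * (2 * v / u) +
        (2 * v / u) ^ 2 := by
    rw [hq, hφ, hp, hy0, hy1, hz', hs']; field_simp; ring
  linear_combination A * e1 + C * e2 + e3

lemma inv_loc {σ : ℝ → ℝ} {I : Set ℝ} (hI : IsOpen I) (hinj : InjOn σ I) {s c : ℝ} (hs : s ∈ I)
    (h1 : ContDiffAt ℝ 1 σ s) (hd : HasDerivAt σ c s) (hc : c ≠ 0)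
    {g : ℝ → ℝ} {g' : ℝ} (g1 : ContDiffAt ℝ 1 g s) (gd : HasDerivAt g g' s) :
    (g ∘ Function.invFunOn σ I) (σ s) = g s ∧ ContDiffAt ℝ 1 (g ∘ Function.invFunOn σ I) (σ s) ∧
      deriv (g ∘ Function.invFunOn σ I) (σ s) = g' / c := by
  have e : Function.invFunOn σ I (σ s) = s := hinj.leftInvOn_invFunOn hs
  have ev : ∀ᶠ x in 𝓝 s, Function.invFunOn σ I (σ x) = x :=
    (hI.eventually_mem hs).mono fun x hx => hinj.leftInvOn_invFunOn hx
  have hf := hd.hasFDerivAt_equiv hc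
  have k1 : ContDiffAt ℝ 1 (Function.invFunOn σ I) (σ s) :=
    (h1.to_localInverse hf one_ne_zero).congr_of_eventuallyEq
      ((h1.hasStrictFDerivAt' hf one_ne_zero).localInverse_unique ev)
  have k2 : HasDerivAt (Function.invFunOn σ I) c⁻¹ (σ s) :=
    ((h1.hasStrictDerivAt' hd one_ne_zero).to_local_left_inverse hc ev).hasDerivAt
  refine ⟨by simp [e], ContDiffAt.comp _ (by rwa [e]) k1, ?_⟩
  have k3 : HasDerivAt g g' (Function.invFunOn σ I (σ s)) := by rwa [e]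
  rw [(k3.comp _ k2).deriv, div_eq_mul_inv]

end Pool.Agent.MP_3d716e_an.H63
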