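import Pool.Agent.MP_3d716e_an.H63.Spec
import Pool.Agent.MP_3d716e_an.H63.Alg
import Pool.Agent.MP_3d716e_an.H63.Key

/-! From the radial solutions on the disc to the calibration. -/

set_option autoImplicit false
open Set Filter Topology

namespace Pool.Agent.MP_3d716e_an.H63

structure Ode (L l : ℝ) (u v vd h Y W Wd : ℝ → ℝ) : Prop where
  du : ∀ s, HasDerivAt u (v s) s
  dv : ∀ s, HasDerivAt v (vd s) s
  dh : ∀ s, HasDerivAt h (-L * v s) s
  dY : ∀ s, HasDerivAt Y (W s) s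
  dW : ∀ s, HasDerivAt W (Wd s) s
  ov : ∀ s, 4 * s * vd s = h s - 4 * v s
  oW : ∀ s, 4 * s * Wd s = -4 * W s - l * Y s
  cu : ContDiff ℝ 1 u
  cv : ContDiff ℝ 1 v
  ch : ContDiff ℝ 1 h
  cY : ContDiff ℝ 1 Y
  cW : ContDiff ℝ 1 W
  iq : ∀ s ∈ Ioo (-1 / 8 : ℝ) 1, Ineq L l s (u s) (v s) (h s) (Y s) (W s)

namespace Ode

variable {L l : ℝ} {u v vd h Y W Wd : ℝ → ℝ} (o : Ode L l u v vd h Y W Wd)
include o

lemma dσ {s : ℝ} (hs : s ∈ Ioo (-1 / 8 : ℝ) 1) :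
    HasDerivAt (fun s => 4 * s * v s ^ 2 / u s ^ 2)
      (-2 * v s * aD s (u s) (v s) (h s) / u s ^ 3) s := by
  have hu := (o.iq s hs).u0.ne'
  have k := ((((hasDerivAt_id s).const_mul 4).fun_mul ((o.dv s).fun_pow 2)).fun_div
    ((o.du s).fun_pow 2) (pow_ne_zero 2 hu))
  refine k.congr_deriv ?_
  have e := o.ov s
  simp only [aD, id]
  field_simp
  norm_num
  linear_combination 2 * v s * u s ^ 2 * e

lemma σpos {s : ℝ} (hs : s ∈ Ioo (-1 / 8 : ℝ) 1) :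
    0 < -2 * v s * aD s (u s) (v s) (h s) / u s ^ 3 := by
  have i := o.iq s hs
  exact div_pos (mul_pos (by linarith [i.v0]) i.D0) (pow_pos i.u0 3)

lemma inj : InjOn (fun s => 4 * s * v s ^ 2 / u s ^ 2) (Ioo (-1 / 8 : ℝ) 1) :=
  (strictMonoOn_of_deriv_pos (convex_Ioo _ _)
    (fun _ hs => (o.dσ hs).continuousAt.continuousWithinAt)
    (fun s hs => by
      rw [interior_Ioo] at hs
      rw [(o.dσ hs).deriv]; exact o.σpos hs)).injOn

lemma surj {z : ℝ} (hz : 0 ≤ z) : ∃ s, 0 ≤ s ∧ s < 1 ∧ 4 * s * v s ^ 2 / u s ^ 2 = z := by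
  obtain ⟨e, he⟩ : ∃ e : ℝ, e = 1 / (z + 2) := ⟨_, rfl⟩
  have e0 : 0 < e := by rw [he]; positivity
  have e1 : e * (z + 2) = 1 := by rw [he]; field_simp
  have e2 : e ≤ 1 / 2 := by nlinarith
  have hm : ∀ s ∈ Icc (0 : ℝ) (1 - e), s ∈ Ioo (-1 / 8 : ℝ) 1 := fun s hs =>
    ⟨by linarith [hs.1], by linarith [hs.2]⟩
  have i := o.iq (1 - e) (hm _ ⟨by linarith, le_rfl⟩)
  have k : z ≤ 4 * (1 - e) * v (1 - e) ^ 2 / u (1 - e) ^ 2 := by
    rw [le_div_iff₀ (pow_pos i.u0 2)]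
    have h1 := i.uv
    have h2 : u (1 - e) ^ 2 ≤ (-(1 - (1 - e)) * v (1 - e)) ^ 2 := pow_le_pow_left₀ i.u0.le h1 2
    have h3 : z * e ^ 2 ≤ 1 := by nlinarith
    have h4 := sq_nonneg (v (1 - e))
    calc z * u (1 - e) ^ 2 ≤ z * (-(1 - (1 - e)) * v (1 - e)) ^ 2 := by gcongr
      _ = z * e ^ 2 * v (1 - e) ^ 2 := by ring
      _ ≤ 4 * (1 - e) * v (1 - e) ^ 2 := mul_le_mul_of_nonneg_right (by linarith) h4
  obtain ⟨s, hs, h1⟩ := intermediate_value_Icc (by linarith : (0 : ℝ) ≤ 1 - e)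
    (f := fun s => 4 * s * v s ^ 2 / u s ^ 2)
    (fun s hs => (o.dσ (hm s hs)).continuousAt.continuousWithinAt) ⟨by simpa using hz, k⟩
  exact ⟨s, hs.1, (hm s hs).2, h1⟩

lemma dE (s : ℝ) : HasDerivAt (fun s => aE L l s (v s) (h s) (Y s) (W s))
    (-4 * (L * v s ^ 2 - W s ^ 2)) s := by
  have k := ((((o.dh s).fun_pow 2).fun_add (((hasDerivAt_id s).const_mul (4 * L)).fun_mul
    ((o.dv s).fun_pow 2))).fun_sub (((hasDerivAt_id s).const_mul 4).fun_mul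
    ((o.dW s).fun_pow 2))).fun_sub (((o.dY s).fun_pow 2).const_mul l)
  refine k.congr_deriv ?_
  simp only [id]
  norm_num
  linear_combination 2 * L * v s * o.ov s - 2 * W s * o.oW s

lemma cE : ContDiff ℝ 1 fun s => aE L l s (v s) (h s) (Y s) (W s) := by
  have := o.cv; have := o.ch; have := o.cY; have := o.cW
  unfold aE
  fun_prop

theorem cal (hl : 0 ≤ l) : ∃ y φ ψ : ℝ → ℝ, Cal L l y φ ψ := by
  let σ : ℝ → ℝ := fun s => 4 * s * v s ^ 2 / u s ^ 2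
  let S := Function.invFunOn σ (Ioo (-1 / 8 : ℝ) 1)
  let E : ℝ → ℝ := fun s => aE L l s (v s) (h s) (Y s) (W s)
  let gy : ℝ → ℝ := fun s => Y s / u s
  let gφ : ℝ → ℝ := fun s => (E s / (2 * v s) - 2 * h s) / u s
  let gψ : ℝ → ℝ := fun s => (2 * v s * h s + 2 * Y s * W s - E s) / (4 * v s ^ 2) + 1
  have main : ∀ z, 0 ≤ z → ∃ s, 0 ≤ s ∧ s < 1 ∧ z = 4 * s * v s ^ 2 / u s ^ 2 ∧
      Ineq L l s (u s) (v s) (h s) (Y s) (W s) ∧
      ContDiffAt ℝ 1 (gy ∘ S) z ∧ ContDiffAt ℝ 1 (gφ ∘ S) z ∧ ContDiffAt ℝ 1 (gψ ∘ S) z ∧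
      (gy ∘ S) z = gy s ∧ (gφ ∘ S) z = gφ s ∧ (gψ ∘ S) z = gψ s ∧
      deriv (gy ∘ S) z = -(W s * u s - Y s * v s) * u s / (2 * v s * aD s (u s) (v s) (h s)) ∧
      z * deriv (gφ ∘ S) z = -2 * v s * ((2 * s * W s ^ 2 / v s - E s * (h s - 4 * v s) /
        (8 * v s ^ 2)) * u s - s * (E s / (2 * v s) - 2 * h s) * v s) /
          (u s * aD s (u s) (v s) (h s)) ∧
      2 * gψ s + 2 * (z * deriv (gψ ∘ S) z) = (4 * v s * (aD s (u s) (v s) (h s) +
        s * (2 * v s * h s + 2 * Y s * W s - E s)) + u s * E s) /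
          (2 * v s * aD s (u s) (v s) (h s)) := by
    intro z hz
    obtain ⟨s, s0, s1, rfl⟩ := o.surj hz
    have hs : s ∈ Ioo (-1 / 8 : ℝ) 1 := ⟨by linarith, s1⟩
    have i := o.iq s hs
    have hu := i.u0.ne'
    have hv := i.v0.ne
    have hD := i.D0.ne'
    have cu := o.cu.contDiffAt (x := s)
    have cv := o.cv.contDiffAt (x := s)
    have ch := o.ch.contDiffAt (x := s)
    have cY := o.cY.contDiffAt (x := s)
    have cW := o.cW.contDiffAt (x := s)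
    have cE : ContDiffAt ℝ 1 E s := o.cE.contDiffAt
    have dE : HasDerivAt E _ s := o.dE s
    have hv2 : 2 * v s ≠ 0 := mul_ne_zero two_ne_zero hv
    have hv4 : 4 * v s ^ 2 ≠ 0 := mul_ne_zero four_ne_zero (pow_ne_zero 2 hv)
    have cσ : ContDiffAt ℝ 1 σ s :=
      ((contDiffAt_const.mul contDiffAt_id).mul (cv.pow 2)).div (cu.pow 2) (pow_ne_zero 2 hu)
    have a := inv_loc isOpen_Ioo o.inj hs cσ (o.dσ hs) (o.σpos hs).ne' (g := gy) (cY.div cu hu)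
      ((o.dY s).fun_div (o.du s) hu)
    have b := inv_loc isOpen_Ioo o.inj hs cσ (o.dσ hs) (o.σpos hs).ne' (g := gφ)
      (((cE.div (contDiffAt_const.mul cv) hv2).sub (contDiffAt_const.mul ch)).div cu hu)
      (((dE.fun_div ((o.dv s).const_mul 2) hv2).fun_sub ((o.dh s).const_mul 2)).fun_div (o.du s) hu)
    have c := inv_loc isOpen_Ioo o.inj hs cσ (o.dσ hs) (o.σpos hs).ne' (g := gψ)
      ((((((contDiffAt_const.mul cv).mul ch).add ((contDiffAt_const.mul cY).mul cW)).sub cE).div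
        (contDiffAt_const.mul (cv.pow 2)) hv4).add contDiffAt_const)
      (((((((o.dv s).const_mul 2).fun_mul (o.dh s)).fun_add
        (((o.dY s).const_mul 2).fun_mul (o.dW s))).fun_sub dE).fun_div
          (((o.dv s).fun_pow 2).const_mul 4) hv4).add_const 1)
    have ov := o.ov s
    have oW := o.oW s
    have hh : h s = 4 * s * vd s + 4 * v s := by linarith
    have eE : E s = h s ^ 2 + 4 * L * s * v s ^ 2 - 4 * s * W s ^ 2 +
        (4 * W s + 4 * s * Wd s) * Y s := by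
      simp only [E, aE]; linear_combination (-Y s) * oW
    refine ⟨s, s0, s1, rfl, i, a.2.1, b.2.1, c.2.1, a.1, b.1, c.1, a.2.2.trans ?_, ?_, ?_⟩
    · field_simp
    · rw [b.2.2]
      field_simp
      linear_combination (8 * E s * u s) * ov
    · rw [c.2.2]
      simp only [gψ]
      field_simp
      rw [aD, eE, hh]
      norm_num
      ring
  have fin : ∀ z, 0 ≤ z → 0 ≤ (gy ∘ S) z ∧ 4 * z * deriv (gy ∘ S) z ^ 2 ≤ 1 ∧
      (|(gφ ∘ S) z| ≤ 20 ∧ (gψ ∘ S) z ^ 2 * z ≤ 20 ∧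
        |(gy ∘ S) z - 2 * z * deriv (gy ∘ S) z| ≤ 20) ∧ ∀ A B C : ℝ,
      0 ≤ (A + C) ^ 2 - 2 * (A * C - B ^ 2) - L * z
        + ((gφ ∘ S) z * (A + C) + ((gφ ∘ S) z - 2 * z * deriv (gφ ∘ S) z) * z +
          2 * deriv (gφ ∘ S) z * (z * A))
        + ((2 * (gψ ∘ S) z + 2 * z * deriv (gψ ∘ S) z) * (A * C - B ^ 2) -
          2 * z * deriv (gψ ∘ S) z * (z * C))
        - (((gy ∘ S) z - 2 * z * deriv (gy ∘ S) z) ^ 2 * z
          + 4 * ((gy ∘ S) z - 2 * z * deriv (gy ∘ S) z) * deriv (gy ∘ S) z * (z * A)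
          + 4 * deriv (gy ∘ S) z ^ 2 * (z * (A ^ 2 + B ^ 2)))
        + l * (gy ∘ S) z ^ 2 := by
    intro z hz
    obtain ⟨s, s0, s1, ez, i, -, -, -, e1, e2, e3, e4, e5, e6⟩ := main z hz
    rw [e1, e2, e3]
    generalize deriv (gy ∘ S) z = y1 at *
    generalize deriv (gφ ∘ S) z = φ1 at *
    generalize deriv (gψ ∘ S) z = ψ1 at *
    have u0 := i.u0
    have v0 := i.v0
    have D0 := i.D0
    have hu := u0.ne'
    have hv := v0.ne
    have hD := D0.ne'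
    have uv : 0 < -2 * v s * u s := mul_pos (by linarith) u0
    have vD : 0 < -2 * v s * aD s (u s) (v s) (h s) := mul_pos (by linarith) D0
    have ey0 : gy s - 2 * z * y1 =
        (4 * s * v s * W s - Y s * (h s - 2 * v s)) / aD s (u s) (v s) (h s) := by
      rw [e4, ez]; simp only [gy]; field_simp; rw [aD]; ring
    have hg : (1 - s) ^ 2 ≤ 4 * (1 - 4 * z * y1 ^ 2) := by
      have k : 4 * z * y1 ^ 2 =
          4 * s * (u s * W s - v s * Y s) ^ 2 / aD s (u s) (v s) (h s) ^ 2 := by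
        rw [e4, ez]; field_simp; ring
      have k2 : 4 * s * (u s * W s - v s * Y s) ^ 2 / aD s (u s) (v s) (h s) ^ 2 ≤
          1 - (1 - s) ^ 2 / 4 := by
        rw [div_le_iff₀ (pow_pos D0 2)]; linarith [i.g]
      linarith
    have hk : |2 * gψ s + 2 * (z * ψ1)| ≤ 1 - s := by
      rw [e6, abs_div, show 2 * v s * aD s (u s) (v s) (h s) =
        -(-2 * v s * aD s (u s) (v s) (h s)) by ring, abs_neg, abs_of_pos vD, div_le_iff₀ vD]
      exact i.k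
    refine ⟨(div_pos i.Y0 u0).le, by nlinarith [sq_nonneg (1 - s)], ⟨?_, ?_, ?_⟩, fun A B C => ?_⟩
    · have k : gφ s = -((E s - 4 * h s * v s) / (-2 * v s * u s)) := by
        simp only [gφ]; field_simp; ring
      rw [k, abs_neg, abs_div, abs_of_pos uv, div_le_iff₀ uv]
      exact i.p
    · have k : gψ s ^ 2 * z = s * (aN L l s (v s) (h s) (Y s) (W s) + 4 * v s ^ 2) ^ 2 /
          (-2 * v s * u s) ^ 2 := by
        rw [ez]; simp only [gψ, aN, E]; field_simp; ring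
      have k2 := abs_le.1 i.q
      have k3 := sq_le_sq' k2.1 k2.2
      rw [k, div_le_iff₀ (pow_pos uv 2)]
      nlinarith [sq_nonneg (aN L l s (v s) (h s) (Y s) (W s) + 4 * v s ^ 2), pow_pos uv 2]
    · rw [ey0, abs_div, abs_of_pos D0, div_le_iff₀ D0]
      linarith [i.y]
    · have k := key_id (E := E s) (φ := gφ s) (ψ := gψ s) hu hv hD rfl ez e4 ey0 rfl e5 rfl e6 A B C
      have k2 := quad_nonneg (a := A - (h s - 2 * v s) / u s) (c := C - 2 * v s / u s) (B := B)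
        (by linarith) (by linarith) hg hk
      have k3 : (E s - h s ^ 2 + 4 * s * W s ^ 2) / u s ^ 2 = L * z - l * gy s ^ 2 := by
        rw [ez]; simp only [E, aE, gy]; field_simp; ring
      rw [← k, k3] at k2
      linarith
  refine ⟨gy ∘ S, gφ ∘ S, gψ ∘ S, hl, fun z hz => ?_, fun z hz => ?_, fun z hz => ?_,
    fun z hz => (fin z hz).1, fun z hz => (fin z hz).2.1, ⟨20, fun z hz => (fin z hz).2.2.1⟩,
    fun z hz => (fin z hz).2.2.2⟩
  · obtain ⟨s, -, -, -, -, a, -⟩ := main z hz; exact a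
  · obtain ⟨s, -, -, -, -, -, a, -⟩ := main z hz; exact a
  · obtain ⟨s, -, -, -, -, -, -, a, -⟩ := main z hz; exact a

end Ode

end Pool.Agent.MP_3d716e_an.H63
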