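import Pool.Agent.MP_3d716e_an.H63.Root
import Pool.Agent.MP_3d716e_an.H17.Div
import Pool.Agent.MP_3d716e_an.H46.FK
import Pool.Agent.MP_3d716e_an.H71.Psi
import Pool.Agent.MP_3d716e_an.H88.Up

/-! The buckling inequality. -/

set_option autoImplicit false
open MeasureTheory Set Real
open Pool.Agent.MP_3d716e_an.H83

namespace Pool.Agent.MP_3d716e_an.H63

theorem int : IntStmt := by
  intro L l y φ ψ hc hF f hf cs R R0 hA
  obtain ⟨i1, h1⟩ := H71.psi L l y φ ψ hc hF f hf cs R R0 hA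
  have h2 := H17.div L l y φ ψ hc f hf cs R R0 i1
  have hx : ContDiff ℝ 1 (dx f) := cd_dx hf (by norm_num)
  have hy : ContDiff ℝ 1 (dy f) := cd_dy hf (by norm_num)
  have ia := imul (cont_dx hx) (cont_dx hx) (cs_dx (cs_dx cs))
  have ib := imul (cont_dy hx) (cont_dy hx) (cs_dy (cs_dx cs))
  have ic := imul (cont_dy hy) (cont_dy hy) (cs_dy (cs_dy cs))
  have id := imul (cont_dx hx) (cont_dy hy) (cs_dy (cs_dy cs))
  have ig := int_g2 (hf.of_le (by norm_num)) cs
  have e0 := int_det hf cs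
  have e1 : ∫ p, (R ^ 4 * hess2 f p - R ^ 2 * L * g2 f p) =
      R ^ 4 * ((∫ p, dx (dx f) p * dx (dx f) p) + 2 * (∫ p, dy (dx f) p * dy (dx f) p) +
        ∫ p, dy (dy f) p * dy (dy f) p) - R ^ 2 * L * ∫ p, g2 f p := by
    rw [← integral_const_mul, ← integral_add ia (ib.const_mul 2),
      ← integral_add (iadd ia (ib.const_mul 2)) ic, ← integral_const_mul, ← integral_const_mul,
      ← integral_sub ((iadd (iadd ia (ib.const_mul 2)) ic).const_mul _) (ig.const_mul _)]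
    congr 1; funext p; unfold hess2; ring
  have e2 : ∫ p, (dx (dx f) p + dy (dy f) p) ^ 2 =
      (∫ p, dx (dx f) p * dx (dx f) p) + 2 * (∫ p, dx (dx f) p * dy (dy f) p) +
        ∫ p, dy (dy f) p * dy (dy f) p := by
    rw [← integral_const_mul, ← integral_add ia (id.const_mul 2),
      ← integral_add (iadd ia (id.const_mul 2)) ic]
    congr 1; funext p; ring
  rw [e1, ← e0, ← e2] at h2
  have p := pow_pos R0 2
  refine le_of_mul_le_mul_left ?_ p
  nlinarith

lemma ineq {L l : ℝ} {y φ ψ : ℝ → ℝ} (hcal : Cal L l y φ ψ) (hF : FK l)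
    {u : EuclideanSpace ℝ (Fin 2) → ℝ} (hu : ContDiff ℝ 3 u) (hc : HasCompactSupport u)
    {R : ℝ} (R0 : 0 < R) (hA : volume.real (tsupport u) ≤ π * R ^ 2) :
    L * ∫ x, ‖fderiv ℝ u x‖ ^ 2 ≤ R ^ 2 * ∫ x, (∑ i : Fin 2, iteratedFDeriv ℝ 2 u x
      (fun _ => EuclideanSpace.single i (1 : ℝ))) ^ 2 := by
  let e : P ≃L[ℝ] EuclideanSpace ℝ (Fin 2) :=
    (ContinuousLinearEquiv.finTwoArrow ℝ ℝ).symm.trans (EuclideanSpace.equiv (Fin 2) ℝ).symm
  have hm : MeasurePreserving e volume volume :=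
    (PiLp.volume_preserving_toLp (Fin 2)).comp ((volume_preserving_finTwoArrow ℝ).symm _)
  have hemb : MeasurableEmbedding e := e.toHomeomorph.measurableEmbedding
  have hI : ∀ F : EuclideanSpace ℝ (Fin 2) → ℝ, ∫ p, F (e p) = ∫ x, F x :=
    fun F => hm.integral_comp hemb F
  have e1 : e (1, 0) = EuclideanSpace.single 0 1 := by
    ext i; fin_cases i <;> simp [e]
  have e2 : e (0, 1) = EuclideanSpace.single 1 1 := by
    ext i; fin_cases i <;> simp [e]
  have hf : ∀ (g : EuclideanSpace ℝ (Fin 2) → ℝ) (p v : P),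
      fderiv ℝ (fun p => g (e p)) p v = fderiv ℝ g (e p) (e v) := fun g p v => by
    have := e.comp_right_fderiv (f := g) (x := p)
    have h2 : (fun p => g (e p)) = g ∘ e := rfl
    rw [h2, this]; rfl
  have hd : ∀ (x v : EuclideanSpace ℝ (Fin 2)), fderiv ℝ (fun y => fderiv ℝ u y v) x v =
      iteratedFDeriv ℝ 2 u x (fun _ => v) := fun x v => by
    have h : DifferentiableAt ℝ (fderiv ℝ u) x :=
      ((hu.fderiv_right (m := 1) (by norm_num)).differentiable one_ne_zero) x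
    rw [fderiv_clm_apply h (differentiableAt_const _), iteratedFDeriv_two_apply]
    simp
  have hv : volume.real (tsupport fun p => u (e p)) = volume.real (tsupport u) := by
    have h1 := hm.measure_preimage_emb hemb (tsupport u)
    have h2 : (tsupport fun p => u (e p)) = e ⁻¹' tsupport u :=
      tsupport_comp_eq_preimage u e.toHomeomorph
    simp only [Measure.real, h2, h1]
  have h := int L l y φ ψ hcal hF (fun p => u (e p)) (hu.comp e.contDiff)
    (hc.comp_homeomorph e.toHomeomorph) R R0 (by rw [hv]; exact hA)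
  have ex : dx (fun p => u (e p)) = fun p => fderiv ℝ u (e p) (EuclideanSpace.single 0 1) := by
    funext p; rw [dx, hf, e1]
  have ey : dy (fun p => u (e p)) = fun p => fderiv ℝ u (e p) (EuclideanSpace.single 1 1) := by
    funext p; rw [dy, hf, e2]
  have g1 : ∀ p, g2 (fun p => u (e p)) p = ‖fderiv ℝ u (e p)‖ ^ 2 := fun p => by
    rw [g2, ex, ey, (EuclideanSpace.basisFun (Fin 2) ℝ).norm_dual]
    simp
  have g3 : ∀ p, dx (dx fun p => u (e p)) p + dy (dy fun p => u (e p)) p =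
      ∑ i : Fin 2, iteratedFDeriv ℝ 2 u (e p) (fun _ => EuclideanSpace.single i (1 : ℝ)) :=
    fun p => by
    rw [ex, ey, dx, dy, hf (fun y => fderiv ℝ u y (EuclideanSpace.single 0 1)),
      hf (fun y => fderiv ℝ u y (EuclideanSpace.single 1 1)), e1, e2, hd, hd, Fin.sum_univ_two]
  simp only [g1, g3] at h
  rw [hI (fun x => ‖fderiv ℝ u x‖ ^ 2), hI fun x => (∑ i : Fin 2, iteratedFDeriv ℝ 2 u x
      (fun _ => EuclideanSpace.single i (1 : ℝ))) ^ 2] at h
  exact h

lemma grad_pos {u : EuclideanSpace ℝ (Fin 2) → ℝ} (hu : ContDiff ℝ 1 u)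
    (hc : HasCompactSupport u) (h0 : u ≠ 0) : 0 < ∫ x, ‖fderiv ℝ u x‖ ^ 2 := by
  have : ∃ x, fderiv ℝ u x ≠ 0 := by
    by_contra h
    push Not at h
    apply h0
    obtain ⟨y, hy⟩ : ∃ y, y ∉ tsupport u := by
      by_contra h'
      push Not at h'
      exact hc.isCompact.ne_univ (eq_univ_of_forall h')
    funext x
    rw [is_const_of_fderiv_eq_zero (hu.differentiable one_ne_zero) h x y]
    exact image_eq_zero_of_notMem_tsupport hy
  obtain ⟨x, hx⟩ := this
  have hs : HasCompactSupport fun x => ‖fderiv ℝ u x‖ ^ 2 :=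
    (hc.fderiv ℝ).comp_left (g := fun L => ‖L‖ ^ 2) (by simp)
  exact Continuous.integral_pos_of_hasCompactSupport_nonneg_nonzero (x := x)
    ((hu.continuous_fderiv one_ne_zero).norm.pow 2) hs (fun _ => sq_nonneg _) (by simpa using hx)

/-- The set of Rayleigh quotients of the buckling problem. -/
def Q (Ω : Set (EuclideanSpace ℝ (Fin 2))) : Set ℝ :=
  {q : ℝ | ∃ u : EuclideanSpace ℝ (Fin 2) → ℝ,
    ContDiff ℝ (⊤ : ℕ∞) u ∧ HasCompactSupport u ∧ tsupport u ⊆ Ω ∧ u ≠ 0 ∧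
    q = (∫ x, (∑ i : Fin 2, iteratedFDeriv ℝ 2 u x
            (fun _ => EuclideanSpace.single i (1 : ℝ))) ^ 2) /
        (∫ x, ‖fderiv ℝ u x‖ ^ 2)}

theorem main (Ω : Set (EuclideanSpace ℝ (Fin 2))) (ho : IsOpen Ω) (r : ℝ) (r0 : 0 < r)
    (hv : volume Ω = volume (Metric.ball (0 : EuclideanSpace ℝ (Fin 2)) r)) :
    sInf (Q (Metric.ball 0 r)) ≤ sInf (Q Ω) := by
  obtain ⟨L, l, y, φ, ψ, Lp, hL, a0, lp, hpos, hc⟩ := cal
  have hF := H46.fk l lp hpos
  have hfin : volume Ω ≠ ⊤ := by rw [hv]; exact measure_ball_lt_top.ne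
  have hne : Ω.Nonempty := nonempty_of_measure_ne_zero
    (by rw [hv]; exact (Metric.measure_ball_pos volume _ r0).ne')
  have hA : volume.real Ω = π * r ^ 2 := by
    rw [Measure.real, hv, EuclideanSpace.volume_ball_fin_two, ENNReal.toReal_mul,
      ENNReal.toReal_pow, ENNReal.toReal_ofReal r0.le, ENNReal.toReal_ofReal pi_pos.le, mul_comm]
  have h1 : sInf (Q (Metric.ball 0 r)) ≤ L / r ^ 2 := by
    refine le_of_forall_pos_le_add fun ε hε => ?_
    obtain ⟨u, u1, u2, u3, u4, u5⟩ := H88.up L Lp hL a0 r r0 ε hε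
    refine (csInf_le (s := Q (Metric.ball 0 r)) ⟨0, ?_⟩ ⟨u, u1, u2, u3, u4, rfl⟩).trans u5
    rintro q ⟨w, -, -, -, -, rfl⟩
    exact div_nonneg (integral_nonneg fun _ => sq_nonneg _) (integral_nonneg fun _ => sq_nonneg _)
  refine h1.trans (le_csInf ?_ ?_)
  · obtain ⟨x, hx⟩ := hne
    obtain ⟨f, h1, h2, h3, -, h5⟩ := exists_contDiff_tsupport_subset (n := ⊤) (ho.mem_nhds hx)
    exact ⟨_, f, h3, h2, h1, fun h => by simp [h] at h5, rfl⟩
  · rintro q ⟨u, h1, h2, h3, h4, rfl⟩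
    have h5 := ineq hc hF (contDiff_infty.1 h1 3) h2 r0 (hA ▸ measureReal_mono h3 hfin)
    have h6 := grad_pos (h1.of_le (by exact_mod_cast le_top)) h2 h4
    rw [div_le_div_iff₀ (pow_pos r0 2) h6]
    linarith

end Pool.Agent.MP_3d716e_an.H63
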