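import Pool.Agent.MP_3d716e_an.H63.TM

/-! Thirteen inequalities between explicit functions of `η ∈ [0, 9/8]`. -/

set_option autoImplicit false

namespace Pool.Agent.MP_3d716e_an.H63

/-- Taylor coefficients at the boundary point. -/
noncomputable def q (x e0 e1 : ℝ) : ℕ → ℝ
  | 0 => e0
  | 1 => e1
  | k + 2 => (((k : ℝ) + 2) ^ 2 * q x e0 e1 (k + 1) - x / 4 * q x e0 e1 k) / ((k + 2) * (k + 3))

lemma q2 (x e0 e1 : ℝ) (k : ℕ) : q x e0 e1 (k + 2) =
    (((k : ℝ) + 2) ^ 2 * q x e0 e1 (k + 1) - x / 4 * q x e0 e1 k) / ((k + 2) * (k + 3)) := rfl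

structure Dat where
  L : ℝ
  l : ℝ
  η : ℝ
  a : ℝ
  b : ℝ
  c : ℝ
  d : ℝ

namespace Dat

variable (w : Dat)

noncomputable def U2 : ℝ := q w.L 0 (1 / 8) 3 + (w.η * (q w.L 0 (1 / 8) 4 + (w.η * (q w.L 0 (1 / 8) 5 + (w.η * (q w.L 0 (1 / 8) 6 + (w.η * (q w.L 0 (1 / 8) 7 + (w.η * (q w.L 0 (1 / 8) 8 + (w.η * w.a)))))))))))
noncomputable def U1 : ℝ := (4 * q w.L 0 (1 / 8) 3) + (w.η * ((5 * q w.L 0 (1 / 8) 4) + (w.η * ((6 * q w.L 0 (1 / 8) 5) + (w.η * ((7 * q w.L 0 (1 / 8) 6) + (w.η * ((8 * q w.L 0 (1 / 8) 7) + (w.η * ((9 * q w.L 0 (1 / 8) 8) + (w.η * ((10 * q w.L 0 (1 / 8) 9) + (w.η * w.b)))))))))))))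
noncomputable def Y2 : ℝ := q w.l (1 / 2) (1 / 4) 2 + (w.η * (q w.l (1 / 2) (1 / 4) 3 + (w.η * (q w.l (1 / 2) (1 / 4) 4 + (w.η * (q w.l (1 / 2) (1 / 4) 5 + (w.η * (q w.l (1 / 2) (1 / 4) 6 + (w.η * (q w.l (1 / 2) (1 / 4) 7 + (w.η * (q w.l (1 / 2) (1 / 4) 8 + (w.η * w.c)))))))))))))
noncomputable def Y1 : ℝ := (4 * q w.l (1 / 2) (1 / 4) 3) + (w.η * ((5 * q w.l (1 / 2) (1 / 4) 4) + (w.η * ((6 * q w.l (1 / 2) (1 / 4) 5) + (w.η * ((7 * q w.l (1 / 2) (1 / 4) 6) + (w.η * ((8 * q w.l (1 / 2) (1 / 4) 7) + (w.η * ((9 * q w.l (1 / 2) (1 / 4) 8) + (w.η * ((10 * q w.l (1 / 2) (1 / 4) 9) + (w.η * w.d)))))))))))))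
noncomputable def uu1 : ℝ := (1 / 12) + (w.η * w.U2)
noncomputable def uu : ℝ := (1 / 8) + (w.η * w.uu1)
noncomputable def vv1 : ℝ := (1 / 4) + (w.η * w.U1)
noncomputable def vv : ℝ := (1 / 4) + (w.η * w.vv1)
noncomputable def yy1 : ℝ := (1 / 4) + (w.η * w.Y2)
noncomputable def yy : ℝ := (1 / 2) + (w.η * w.yy1)
noncomputable def w2 : ℝ := ((1 / 2) - ((1 / 16) * w.l)) + (w.η * w.Y1)
noncomputable def ww1 : ℝ := (1 / 2) + (w.η * w.w2)
noncomputable def ww : ℝ := (1 / 2) + (w.η * w.ww1)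
noncomputable def s : ℝ := 1 - w.η
noncomputable def V2 : ℝ := (((1 / 16) + ((1 / 2) * w.U1)) + ((1 / 2) * (w.η * w.U1))) + ((w.η * w.U1) * (w.η * w.U1))
noncomputable def G2 : ℝ := ((1 / 2) + (2 * (w.η * w.U1))) - (w.L * w.uu)
noncomputable def D2 : ℝ := ((((4 * (w.s * w.V2)) - (13 / 24)) - w.U2) - (w.G2 * w.uu)) - ((1 / 2) * (w.η * w.U2))
noncomputable def e2 : ℝ := w.η * w.η
noncomputable def D : ℝ := ((1 / 8) + ((5 / 48) * w.η)) + (w.e2 * w.D2)
noncomputable def K2 : ℝ := ((((1 / 8) * w.w2) + ((1 / 12) * w.ww1)) + (w.U2 * w.ww)) - ((((1 / 4) * w.Y2) + ((1 / 4) * w.yy1)) + (w.U1 * w.yy))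
noncomputable def DD : ℝ := (25 / 2304) + (w.D2 * (((1 / 4) + ((5 / 24) * w.η)) + (w.e2 * w.D2)))
noncomputable def KK : ℝ := (1 / 144) + (w.K2 * (((w.e2 * w.K2) - (1 / 8)) - ((1 / 6) * w.η)))
noncomputable def R : ℝ := (w.DD - (4 * (w.s * w.KK))) + (1 / 24)
noncomputable def WW3 : ℝ := (w.Y1 + w.w2) + (w.η * (w.w2 * w.w2))
noncomputable def E3 : ℝ := (((((((w.L * w.L) * (w.η * (w.uu * w.uu))) - (2 * (w.L * w.uu1))) + (4 * (w.L * ((w.vv1 * (w.vv + (1 / 4))) - (w.vv * w.vv))))) - (4 * (w.s * w.WW3))) + 3) - ((1 / 4) * w.l)) - (w.l * (w.yy1 * (w.yy + (1 / 2))))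
noncomputable def X : ℝ := w.U1 - (w.L * (w.uu * w.vv))
noncomputable def n3 : ℝ := ((((-(2 * w.X)) - w.w2) - ((1 / 2) * w.ww1)) - (2 * (w.Y2 * w.ww))) - w.E3
noncomputable def M4 : ℝ := w.n3 + (4 * (w.vv1 * (w.vv + (1 / 4))))
noncomputable def M3 : ℝ := w.E3 + (4 * w.X)
noncomputable def S1 : ℝ := ((17 / 48) + (w.η * w.D2)) + (w.s * w.n3)
noncomputable def N4 : ℝ := ((((1 / 2) * w.vv1) - (4 * (w.vv * w.S1))) - w.uu1) + (w.uu * ((w.η * w.E3) - 1))
noncomputable def M5 : ℝ := ((((4 * (w.vv1 * w.ww)) + w.ww1) - (4 * (w.vv * w.ww))) - w.yy1) - (w.yy * ((2 * w.vv) - (w.L * (w.η * w.uu))))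
noncomputable def vD : ℝ := w.vv * w.D
noncomputable def vu : ℝ := w.vv * w.uu

structure Ok : Prop where
  L : |10000000000 * w.L - 146819706000| ≤ 10000
  l : |10000000000 * w.l - 57831860000| ≤ 10000
  h0 : 0 ≤ w.η
  h1 : w.η ≤ 9 / 8
  a : |w.a| ≤ 3 / 1000000
  b : |w.b| ≤ 3 / 1000000
  c : |w.c| ≤ 3 / 1000000
  d : |w.d| ≤ 3 / 1000000

lemma small {t x : ℝ} (h : |x| ≤ 3 / 1000000) : Encl t x ([], 30000) := by
  simp only [Encl, ev, SS]
  rw [abs_le] at *
  constructor <;> push_cast <;> linarith [h.1, h.2]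

theorem num (h : w.Ok) :
    0 < w.uu ∧
    0 < w.vv - w.uu ∧
    0 < w.yy ∧
    0 < w.D ∧
    0 < (4 * w.R) - (w.D * w.D) ∧
    0 < (2 * w.vD) + w.N4 ∧
    0 < (2 * w.vD) - w.N4 ∧
    0 < (40 * w.vu) + w.M3 ∧
    0 < (40 * w.vu) - w.M3 ∧
    0 < (4 * w.vu) + w.M4 ∧
    0 < (4 * w.vu) - w.M4 ∧
    0 < (10 * w.D) + w.M5 ∧
    0 < (10 * w.D) - w.M5 := by
  obtain ⟨t, et⟩ : ∃ t : ℝ, t = 8 / 9 * w.η := ⟨_, rfl⟩
  have t0 : 0 ≤ t := by linarith [h.h0]
  have t1 : t ≤ 1 := by linarith [h.h1]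
  have ht : |t| ≤ 1 := by rwa [abs_of_nonneg t0]
  have hL : Encl t w.L ([146819706000], 10000) := by simpa [Encl, ev, SS] using h.L
  have hl : Encl t w.l ([57831860000], 10000) := by simpa [Encl, ev, SS] using h.l
  have hη : Encl t w.η ([0, 11250000000], 0) := by
    simp only [Encl, ev, SS, et]; push_cast; rw [abs_le]; constructor <;> linarith
  have ha := small (t := t) h.a
  have hb := small (t := t) h.b
  have hc := small (t := t) h.c
  have hd := small (t := t) h.d
  have hu0 : Encl t (q w.L 0 (1 / 8) 0) ([0], 1) :=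
    (Encl.con 0 1).fin ht (by unfold q; push_cast <;> ring) (by decide +kernel)
  have hu1 : Encl t (q w.L 0 (1 / 8) 1) ([1250000000], 1) :=
    (Encl.con 1 8).fin ht (by unfold q; push_cast <;> ring) (by decide +kernel)
  have hu2 : Encl t (q w.L 0 (1 / 8) 2) ([833333333], 8) :=
    (((Encl.con 2 3).mul ht hu1).sub ((Encl.con 1 24).mul ht (hL.mul ht hu0))).fin ht ((q2 _ _ _ 0).trans (by push_cast; ring)) (by decide +kernel)
  have hu3 : Encl t (q w.L 0 (1 / 8) 3) ([242657016], 41) :=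
    (((Encl.con 3 4).mul ht hu2).sub ((Encl.con 1 48).mul ht (hL.mul ht hu1))).fin ht ((q2 _ _ _ 1).trans (by push_cast; ring)) (by decide +kernel)
  have hu4 : Encl t (q w.L 0 (1 / 8) 4) ([41188419], 53) :=
    (((Encl.con 4 5).mul ht hu3).sub ((Encl.con 1 80).mul ht (hL.mul ht hu2))).fin ht ((q2 _ _ _ 2).trans (by push_cast; ring)) (by decide +kernel)
  have hu5 : Encl t (q w.L 0 (1 / 8) 5) ([4634656], 58) :=
    (((Encl.con 5 6).mul ht hu4).sub ((Encl.con 1 120).mul ht (hL.mul ht hu3))).fin ht ((q2 _ _ _ 3).trans (by push_cast; ring)) (by decide +kernel)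
  have hu6 : Encl t (q w.L 0 (1 / 8) 6) ([372996], 62) :=
    (((Encl.con 6 7).mul ht hu5).sub ((Encl.con 1 168).mul ht (hL.mul ht hu4))).fin ht ((q2 _ _ _ 4).trans (by push_cast; ring)) (by decide +kernel)
  have hu7 : Encl t (q w.L 0 (1 / 8) 7) ([22595], 65) :=
    (((Encl.con 7 8).mul ht hu6).sub ((Encl.con 1 224).mul ht (hL.mul ht hu5))).fin ht ((q2 _ _ _ 5).trans (by push_cast; ring)) (by decide +kernel)
  have hu8 : Encl t (q w.L 0 (1 / 8) 8) ([1070], 69) :=
    (((Encl.con 8 9).mul ht hu7).sub ((Encl.con 1 288).mul ht (hL.mul ht hu6))).fin ht ((q2 _ _ _ 6).trans (by push_cast; ring)) (by decide +kernel)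
  have hu9 : Encl t (q w.L 0 (1 / 8) 9) ([42], 72) :=
    (((Encl.con 9 10).mul ht hu8).sub ((Encl.con 1 360).mul ht (hL.mul ht hu7))).fin ht ((q2 _ _ _ 7).trans (by push_cast; ring)) (by decide +kernel)
  have hy0 : Encl t (q w.l (1 / 2) (1 / 4) 0) ([5000000000], 1) :=
    (Encl.con 1 2).fin ht (by unfold q; push_cast <;> ring) (by decide +kernel)
  have hy1 : Encl t (q w.l (1 / 2) (1 / 4) 1) ([2500000000], 1) :=
    (Encl.con 1 4).fin ht (by unfold q; push_cast <;> ring) (by decide +kernel)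
  have hy2 : Encl t (q w.l (1 / 2) (1 / 4) 2) ([461836252], 220) :=
    (((Encl.con 2 3).mul ht hy1).sub ((Encl.con 1 24).mul ht (hl.mul ht hy0))).fin ht ((q2 _ _ _ 0).trans (by push_cast; ring)) (by decide +kernel)
  have hy3 : Encl t (q w.l (1 / 2) (1 / 4) 3) ([45169586], 226) :=
    (((Encl.con 3 4).mul ht hy2).sub ((Encl.con 1 48).mul ht (hl.mul ht hy1))).fin ht ((q2 _ _ _ 1).trans (by push_cast; ring)) (by decide +kernel)
  have hy4 : Encl t (q w.l (1 / 2) (1 / 4) 4) ([2749607], 210) :=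
    (((Encl.con 4 5).mul ht hy3).sub ((Encl.con 1 80).mul ht (hl.mul ht hy2))).fin ht ((q2 _ _ _ 2).trans (by push_cast; ring)) (by decide +kernel)
  have hy5 : Encl t (q w.l (1 / 2) (1 / 4) 5) ([114472], 193) :=
    (((Encl.con 5 6).mul ht hy4).sub ((Encl.con 1 120).mul ht (hl.mul ht hy3))).fin ht ((q2 _ _ _ 3).trans (by push_cast; ring)) (by decide +kernel)
  have hy6 : Encl t (q w.l (1 / 2) (1 / 4) 6) ([3467], 180) :=
    (((Encl.con 6 7).mul ht hy5).sub ((Encl.con 1 168).mul ht (hl.mul ht hy4))).fin ht ((q2 _ _ _ 4).trans (by push_cast; ring)) (by decide +kernel)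
  have hy7 : Encl t (q w.l (1 / 2) (1 / 4) 7) ([78], 170) :=
    (((Encl.con 7 8).mul ht hy6).sub ((Encl.con 1 224).mul ht (hl.mul ht hy5))).fin ht ((q2 _ _ _ 5).trans (by push_cast; ring)) (by decide +kernel)
  have hy8 : Encl t (q w.l (1 / 2) (1 / 4) 8) ([0], 162) :=
    (((Encl.con 8 9).mul ht hy7).sub ((Encl.con 1 288).mul ht (hl.mul ht hy6))).fin ht ((q2 _ _ _ 6).trans (by push_cast; ring)) (by decide +kernel)
  have hy9 : Encl t (q w.l (1 / 2) (1 / 4) 9) ([-1], 154) :=
    (((Encl.con 9 10).mul ht hy8).sub ((Encl.con 1 360).mul ht (hl.mul ht hy7))).fin ht ((q2 _ _ _ 7).trans (by push_cast; ring)) (by decide +kernel)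
  have hU2 : Encl t w.U2 ([242657016, 46336971, 5865736, 531081, 36191, 1926, 0], 61326) :=
    (hu3.add (hη.mul ht (hu4.add (hη.mul ht (hu5.add (hη.mul ht (hu6.add (hη.mul ht (hu7.add (hη.mul ht (hu8.add (hη.mul ht ha)))))))))))).fin ht (by unfold U2; push_cast <;> ring) (by decide +kernel)
  have hU1 : Encl t w.U1 ([970628064, 231684856, 35194419, 3717573, 289541, 17350, 848, 0], 73387) :=
    (((Encl.con 4 1).mul ht hu3).add (hη.mul ht (((Encl.con 5 1).mul ht hu4).add (hη.mul ht (((Encl.con 6 1).mul ht hu5).add (hη.mul ht (((Encl.con 7 1).mul ht hu6).add (hη.mul ht (((Encl.con 8 1).mul ht hu7).add (hη.mul ht (((Encl.con 9 1).mul ht hu8).add (hη.mul ht (((Encl.con 10 1).mul ht hu9).add (hη.mul ht hb)))))))))))))).fin ht (by unfold U1; push_cast <;> ring) (by decide +kernel)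
  have hY2 : Encl t w.Y2 ([461836252, 50815784, 3479970, 162987, 5551, 137, 0, 0], 70381) :=
    (hy2.add (hη.mul ht (hy3.add (hη.mul ht (hy4.add (hη.mul ht (hy5.add (hη.mul ht (hy6.add (hη.mul ht (hy7.add (hη.mul ht (hy8.add (hη.mul ht hc)))))))))))))).fin ht (by unfold Y2; push_cast <;> ring) (by decide +kernel)
  have hY1 : Encl t w.Y1 ([180678344, 15466539, 869271, 34553, 997, 0, -24, 0], 81726) :=
    (((Encl.con 4 1).mul ht hy3).add (hη.mul ht (((Encl.con 5 1).mul ht hy4).add (hη.mul ht (((Encl.con 6 1).mul ht hy5).add (hη.mul ht (((Encl.con 7 1).mul ht hy6).add (hη.mul ht (((Encl.con 8 1).mul ht hy7).add (hη.mul ht (((Encl.con 9 1).mul ht hy8).add (hη.mul ht (((Encl.con 10 1).mul ht hy9).add (hη.mul ht hd)))))))))))))).fin ht (by unfold Y1; push_cast <;> ring) (by decide +kernel)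
  have huu1 : Encl t w.uu1 ([833333333, 272989143, 52129092, 6598953, 597466, 40714, 2166, 0], 69000) :=
    ((Encl.con 1 12).add (hη.mul ht hU2)).fin ht (by unfold uu1; push_cast <;> ring) (by decide +kernel)
  have huu : Encl t w.uu ([1250000000, 937499999, 307112785, 58645228, 7423822, 672149, 45803, 2436, 0], 77635) :=
    ((Encl.con 1 8).add (hη.mul ht huu1)).fin ht (by unfold uu; push_cast <;> ring) (by decide +kernel)
  have hvv1 : Encl t w.vv1 ([2500000000, 1091956572, 260645463, 39593721, 4182269, 325733, 19518, 954, 0], 82569) :=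
    ((Encl.con 1 4).add (hη.mul ht hU1)).fin ht (by unfold vv1; push_cast <;> ring) (by decide +kernel)
  have hvv : Encl t w.vv ([2500000000, 2812500000, 1228451143, 293226145, 44542936, 4705052, 366449, 21957, 1073, 0], 92900) :=
    ((Encl.con 1 4).add (hη.mul ht hvv1)).fin ht (by unfold vv; push_cast <;> ring) (by decide +kernel)
  have hyy1 : Encl t w.yy1 ([2500000000, 519565783, 57167757, 3914966, 183360, 6244, 154, 0, 0], 79187) :=
    ((Encl.con 1 4).add (hη.mul ht hY2)).fin ht (by unfold yy1; push_cast <;> ring) (by decide +kernel)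
  have hyy : Encl t w.yy ([5000000000, 2812500000, 584511505, 64313726, 4404336, 206280, 7024, 173, 0, 0], 89095) :=
    ((Encl.con 1 2).add (hη.mul ht hyy1)).fin ht (by unfold yy; push_cast <;> ring) (by decide +kernel)
  have hw2 : Encl t w.w2 ([1385508750, 203263137, 17399856, 977929, 38872, 1121, 0, -27, 0], 92581) :=
    (((Encl.con 1 2).sub ((Encl.con 1 16).mul ht hl)).add (hη.mul ht hY1)).fin ht (by unfold w2; push_cast <;> ring) (by decide +kernel)
  have hww1 : Encl t w.ww1 ([5000000000, 1558697343, 228671029, 19574838, 1100170, 43731, 1261, 0, -31, 0], 104162) :=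
    ((Encl.con 1 2).add (hη.mul ht hw2)).fin ht (by unfold ww1; push_cast <;> ring) (by decide +kernel)
  have hww : Encl t w.ww ([5000000000, 5625000000, 1753534510, 257254907, 22021692, 1237691, 49197, 1418, 0, -35], 117192) :=
    ((Encl.con 1 2).add (hη.mul ht hww1)).fin ht (by unfold ww; push_cast <;> ring) (by decide +kernel)
  have hs : Encl t w.s ([10000000000, -11250000000], 6) :=
    ((Encl.con 1 1).sub hη).fin ht (by unfold s; push_cast <;> ring) (by decide +kernel)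
  have hV2 : Encl t w.V2 ([1110314032, 661820714, 267156855, 78578351, 17676434, 3148896, 456104, 54838, 5554, 476], 101091) :=
    ((((Encl.con 1 16).add ((Encl.con 1 2).mul ht hU1)).add ((Encl.con 1 2).mul ht (hη.mul ht hU1))).add ((hη.mul ht hU1).mul ht (hη.mul ht hU1))).fin ht (by unfold V2; push_cast <;> ring) (by decide +kernel)
  have hG2 : Encl t w.G2 ([-13352463250, -11580434278, -3987729954, -781840071, -100631798, -9217005, -633442, -33857, 0], 1307533) :=
    (((Encl.con 1 2).add ((Encl.con 2 1).mul ht (hη.mul ht hU1))).sub (hL.mul ht huu)).fin ht (by unfold G2; push_cast <;> ring) (by decide +kernel)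
  have hD2 : Encl t w.D2 ([450990353, 167385884, 52707097, 13812459, 2939351, 507736, 72182, 8479, 470, -178], 1525727) :=
    ((((((Encl.con 4 1).mul ht (hs.mul ht hV2)).sub (Encl.con 13 24)).sub hU2).sub (hG2.mul ht huu)).sub ((Encl.con 1 2).mul ht (hη.mul ht hU2))).fin ht (by unfold D2; push_cast <;> ring) (by decide +kernel)
  have he2 : Encl t w.e2 ([0, 0, 12656250000], 6) :=
    (hη.mul ht hη).fin ht (by unfold e2; push_cast <;> ring) (by decide +kernel)
  have hD : Encl t w.D ([1250000000, 1171874999, 570784665, 211847759, 66707419, 17481393, 3720116, 642603, 91355, 10731], 1931830) :=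
    (((Encl.con 1 8).add ((Encl.con 5 48).mul ht hη)).add (he2.mul ht hD2)).fin ht (by unfold D; push_cast <;> ring) (by decide +kernel)
  have hK2 : Encl t w.K2 ([-514589328, -216464568, -61875773, -12875108, -2043911, -256207, -26093, -2235, -167, -11], 211959) :=
    (((((Encl.con 1 8).mul ht hw2).add ((Encl.con 1 12).mul ht hww1)).add (hU2.mul ht hww)).sub ((((Encl.con 1 4).mul ht hY2).add ((Encl.con 1 4).mul ht hyy1)).add (hU1.mul ht hyy))).fin ht (by unfold K2; push_cast <;> ring) (by decide +kernel)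
  have hDD : Encl t w.DD ([221254532, 147547334, 78149678, 34914599, 13535045, 4625808, 1409416, 385816, 95218, 21142], 1010309) :=
    ((Encl.con 25 2304).add (hD2.mul ht (((Encl.con 1 4).add ((Encl.con 5 24).mul ht hη)).add (he2.mul ht hD2)))).fin ht (by unfold DD; push_cast <;> ring) (by decide +kernel)
  have hKK : Encl t w.KK ([133768110, 123543569, 81835603, 41406779, 16659554, 5482645, 1507550, 352189, 70869, 12427], 111831) :=
    ((Encl.con 1 144).add (hK2.mul ht (((he2.mul ht hK2).sub (Encl.con 1 8)).sub ((Encl.con 1 6).mul ht hη)))).fin ht (by unfold KK; push_cast <;> ring) (by decide +kernel)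
  have hR : Encl t w.R ([102848758, 255329554, 306753330, 237547699, 133227337, 57663224, 20051120, 5761036, 1396594, 290346], 2016820) :=
    ((hDD.sub ((Encl.con 4 1).mul ht (hs.mul ht hKK))).add (Encl.con 1 24)).fin ht (by unfold R; push_cast <;> ring) (by decide +kernel)
  have hWW3 : Encl t w.WW3 ([1566187094, 434688556, 81634268, 11084742, 1140495, 92023, 5931, 283, 4, -2], 207805) :=
    ((hY1.add hw2).add (hη.mul ht (hw2.mul ht hw2))).fin ht (by unfold WW3; push_cast <;> ring) (by decide +kernel)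
  have hE3 : Encl t w.E3 ([7054297134, 18884560676, 16114147853, 8137351340, 2829601769, 729424626, 145936516, 23405149, 3079729, 332268], 29372963) :=
    ((((((((hL.mul ht hL).mul ht (hη.mul ht (huu.mul ht huu))).sub ((Encl.con 2 1).mul ht (hL.mul ht huu1))).add ((Encl.con 4 1).mul ht (hL.mul ht ((hvv1.mul ht (hvv.add (Encl.con 1 4))).sub (hvv.mul ht hvv))))).sub ((Encl.con 4 1).mul ht (hs.mul ht hWW3))).add (Encl.con 3 1)).sub ((Encl.con 1 4).mul ht hl)).sub (hl.mul ht (hyy1.mul ht (hyy.add (Encl.con 1 2))))).fin ht (by unfold E3; push_cast <;> ring) (by decide +kernel)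
  have hX : Encl t w.X ([-3617487748, -8371032277, -7217793946, -3708726458, -1308388627, -341039658, -68813239, -11107894, -1470076, -162279], 1225554) :=
    (hU1.sub (hL.mul ht (huu.mul ht hvv))).fin ht (by unfold X; push_cast <;> ring) (by decide +kernel)
  have hn3 : Encl t w.n3 ([-4166666640, -3695489496, -2032912219, -776325098, -219471436, -47949018, -8353604, -1191876, -139681, -7710], 32159052) :=
    ((((((Encl.con 2 1).mul ht hX).neg.sub hw2).sub ((Encl.con 1 2).mul ht hww1)).sub ((Encl.con 2 1).mul ht (hY2.mul ht hww))).sub hE3).fin ht (by unfold n3; push_cast <;> ring) (by decide +kernel)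
  have hM4 : Encl t w.M4 ([833333360, 1300923648, 945280993, 425880754, 134131144, 31594938, 5816432, 860592, 107087, 17282], 32616114) :=
    (hn3.add ((Encl.con 4 1).mul ht (hvv1.mul ht (hvv.add (Encl.con 1 4))))).fin ht (by unfold M4; push_cast <;> ring) (by decide +kernel)
  have hM3 : Encl t w.M3 ([-7415653858, -14599568432, -12757027931, -6697554492, -2403952739, -634734006, -129316440, -21026427, -2800575, -316848], 34275187) :=
    (hE3.add ((Encl.con 4 1).mul ht hX)).fin ht (by unfold M3; push_cast <;> ring) (by decide +kernel)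
  have hS1 : Encl t w.S1 ([-624999974, 1499374621, 2312822583, 1569996632, 669433315, 202263116, 46160244, 8287132, 1210717, 149959], 70063323) :=
    (((Encl.con 17 48).add (hη.mul ht hD2)).add (hs.mul ht hn3)).fin ht (by unfold S1; push_cast <;> ring) (by decide +kernel)
  have hN4 : Encl t w.N4 ([-208333357, -468749970, -521776158, -379315867, -199951562, -80821603, -25997873, -6839074, -1506313, -290105], 209490960) :=
    (((((Encl.con 1 2).mul ht hvv1).sub ((Encl.con 4 1).mul ht (hvv.mul ht hS1))).sub huu1).add (huu.mul ht ((hη.mul ht hE3).sub (Encl.con 1 1)))).fin ht (by unfold N4; push_cast <;> ring) (by decide +kernel)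
  have hM5 : Encl t w.M5 ([0, 3702555282, 4811210545, 2877107542, 1051078431, 264329732, 49001774, 7007173, 798466, 73490], 3192089) :=
    ((((((Encl.con 4 1).mul ht (hvv1.mul ht hww)).add hww1).sub ((Encl.con 4 1).mul ht (hvv.mul ht hww))).sub hyy1).sub (hyy.mul ht (((Encl.con 2 1).mul ht hvv).sub (hL.mul ht (hη.mul ht huu))))).fin ht (by unfold M5; push_cast <;> ring) (by decide +kernel)
  have hvD : Encl t w.vD ([312500000, 644531249, 625842402, 394107513, 186307450, 71701177, 23392903, 6568350, 1593602, 334796], 1432067) :=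
    (hvv.mul ht hD).fin ht (by unfold vD; push_cast <;> ring) (by decide +kernel)
  have hvu : Encl t w.vu ([312500000, 585937499, 494006463, 252857340, 89135049, 23229648, 4686979, 756567, 100128, 11053], 78359) :=
    (hvv.mul ht huu).fin ht (by unfold vu; push_cast <;> ring) (by decide +kernel)
  exact ⟨huu.pos t0 t1 (by push_cast <;> ring) (by decide +kernel),
    (hvv.sub huu).pos t0 t1 (by push_cast <;> ring) (by decide +kernel),
    hyy.pos t0 t1 (by push_cast <;> ring) (by decide +kernel),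
    hD.pos t0 t1 (by push_cast <;> ring) (by decide +kernel),
    (((Encl.con 4 1).mul ht hR).sub (hD.mul ht hD)).pos t0 t1 (by push_cast <;> ring) (by decide +kernel),
    (((Encl.con 2 1).mul ht hvD).add hN4).pos t0 t1 (by push_cast <;> ring) (by decide +kernel),
    (((Encl.con 2 1).mul ht hvD).sub hN4).pos t0 t1 (by push_cast <;> ring) (by decide +kernel),
    (((Encl.con 40 1).mul ht hvu).add hM3).pos t0 t1 (by push_cast <;> ring) (by decide +kernel),
    (((Encl.con 40 1).mul ht hvu).sub hM3).pos t0 t1 (by push_cast <;> ring) (by decide +kernel),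
    (((Encl.con 4 1).mul ht hvu).add hM4).pos t0 t1 (by push_cast <;> ring) (by decide +kernel),
    (((Encl.con 4 1).mul ht hvu).sub hM4).pos t0 t1 (by push_cast <;> ring) (by decide +kernel),
    (((Encl.con 10 1).mul ht hD).add hM5).pos t0 t1 (by push_cast <;> ring) (by decide +kernel),
    (((Encl.con 10 1).mul ht hD).sub hM5).pos t0 t1 (by push_cast <;> ring) (by decide +kernel)⟩

end Dat

end Pool.Agent.MP_3d716e_an.H63
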