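import Pool.Agent.MP_3d716e_an.H63.Cal

/-! The two Bessel zeros and the existence of the calibration. -/

set_option autoImplicit false
open Set Real

namespace Pool.Agent.MP_3d716e_an.H63

lemma exp4 : exp (16 / 4) ≤ 55 := by
  have h := Real.exp_one_lt_d9
  have e : exp (16 / 4) = exp 1 ^ 4 := by rw [← Real.exp_nat_mul]; norm_num
  rw [e]
  calc exp 1 ^ 4 ≤ 2.7182818286 ^ 4 := by gcongr
    _ ≤ 55 := by norm_num

lemma taylor16 (N n : ℕ) {x0 y b : ℝ} (h0 : |x0| ≤ 16) (hy : |x0 - y| ≤ 16) (hb : |y| ≤ b) :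
    |F n (x0 - y) - ∑ m ∈ Finset.range N, (y / 4) ^ m / m.factorial * F (n + m) x0| ≤
      (b / 4) ^ N / N.factorial * (55 / (n + N).factorial) := by
  refine (taylor_F N n h0 hy).trans ?_
  have := exp4
  have := (abs_nonneg y).trans hb
  gcongr

lemma F_at (n : ℕ) {a : ℝ} (h0 : 0 ≤ a) (ha : a ≤ 15) :
    |F n a - ∑ m ∈ Finset.range 17, (-a / 4) ^ m / m.factorial * (1 / (n + m).factorial)| ≤
      (15 / 4) ^ 17 / (17 : ℕ).factorial * (55 / (n + 17).factorial) := by
  have h := taylor16 17 n (x0 := 0) (y := -a) (b := 15) (by norm_num)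
    (by rw [zero_sub, neg_neg, abs_of_nonneg h0]; linarith) (by rwa [abs_neg, abs_of_nonneg h0])
  simpa only [zero_sub, neg_neg, F_zero] using h

lemma root {n : ℕ} {a b : ℝ} (hab : a ≤ b) (ha : 0 ≤ F n a) (hb : F n b ≤ 0) :
    ∃ x, a ≤ x ∧ x ≤ b ∧ F n x = 0 := by
  obtain ⟨x, hx, h⟩ := intermediate_value_Icc' hab (continuous_F n).continuousOn ⟨hb, ha⟩
  exact ⟨x, hx.1, hx.2, h⟩

lemma exists_L : ∃ L : ℝ, 14.6819696 ≤ L ∧ L ≤ 14.6819716 ∧ F 1 L = 0 ∧ F 0 L ≤ -0.4 := by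
  have h1 := (abs_le.1 (F_at 1 (a := 14.6819696) (by norm_num) (by norm_num))).1
  have h2 := (abs_le.1 (F_at 1 (a := 14.6819716) (by norm_num) (by norm_num))).2
  have h3 := (abs_le.1 (F_at 0 (a := 14.68197) (by norm_num) (by norm_num))).2
  norm_num [Finset.sum_range_succ, Nat.factorial] at h1 h2 h3
  obtain ⟨L, a, b, c⟩ := root (n := 1) (a := 14.6819696) (b := 14.6819716) (by norm_num)
    (by norm_num; linarith) (by norm_num; linarith)
  refine ⟨L, a, b, c, ?_⟩
  have h4 := (abs_le.1 (taylor16 1 0 (x0 := 14.68197) (y := 14.68197 - L) (b := 0.00001)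
    (by norm_num [abs_le]) (by rw [sub_sub_cancel, abs_le]; constructor <;> linarith)
    (by rw [abs_le]; constructor <;> linarith))).2
  rw [sub_sub_cancel] at h4
  norm_num at h4
  linarith

lemma exists_l : ∃ l : ℝ, 5.783185 ≤ l ∧ l ≤ 5.783187 ∧ F 0 l = 0 ∧ 0.43 ≤ F 1 l := by
  have h1 := (abs_le.1 (F_at 0 (a := 5.783185) (by norm_num) (by norm_num))).1
  have h2 := (abs_le.1 (F_at 0 (a := 5.783187) (by norm_num) (by norm_num))).2
  have h3 := (abs_le.1 (F_at 1 (a := 5.783186) (by norm_num) (by norm_num))).1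
  norm_num [Finset.sum_range_succ, Nat.factorial] at h1 h2 h3
  obtain ⟨L, a, b, c⟩ := root (n := 0) (a := 5.783185) (b := 5.783187) (by norm_num)
    (by norm_num; linarith) (by norm_num; linarith)
  refine ⟨L, a, b, c, ?_⟩
  have h4 := (abs_le.1 (taylor16 1 1 (x0 := 5.783186) (y := 5.783186 - L) (b := 0.00001)
    (by norm_num [abs_le]) (by rw [sub_sub_cancel, abs_le]; constructor <;> linarith)
    (by rw [abs_le]; constructor <;> linarith))).1
  rw [sub_sub_cancel] at h4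
  norm_num at h4
  linarith

lemma q_eq {x ν : ℝ} : ∀ k : ℕ, q x (ν * (x / 4) * F 1 x) (ν * (x / 4) ^ 2 / 2 * F 2 x) k =
    ν * ((x / 4) ^ (k + 1) / (k + 1).factorial * F (k + 1) x)
  | 0 => by simp [q]; ring
  | 1 => by simp [q]; ring
  | k + 2 => by
    have h1 : (0 : ℝ) < (k + 1).factorial := by exact_mod_cast (k + 1).factorial_pos
    rw [q2, q_eq (k + 1), q_eq k, F_rec (k + 1) x, Nat.factorial_succ (k + 2),
      Nat.factorial_succ (k + 1)]
    push_cast
    field_simp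
    ring

lemma rem_ex {d c ν η : ℝ} (h0 : 0 < η) (hν : |ν| ≤ 1) (h : |d| ≤ c * η ^ 10) :
    ∃ a, |a| ≤ c ∧ ν * d = a * η ^ 10 := by
  have p := pow_pos h0 10
  refine ⟨ν * d / η ^ 10, ?_, by field_simp⟩
  rw [abs_div, abs_of_pos p, div_le_iff₀ p, abs_mul]
  exact (mul_le_of_le_one_left (abs_nonneg d) hν).trans h

lemma tay {x ν η e0 e1 e2 : ℝ} (hx0 : 0 ≤ x) (hx : x ≤ 14.7) (hν : |ν| ≤ 1) (h0 : 0 < η)
    (h1 : η ≤ 9 / 8) (he0 : ν * F 0 x = e0) (he1 : ν * (x / 4) * F 1 x = e1)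
    (he2 : ν * (x / 4) ^ 2 / 2 * F 2 x = e2) :
    ∃ a b : ℝ, |a| ≤ 3 / 1000000 ∧ |b| ≤ 3 / 1000000 ∧
      ν * F 0 (x * (1 - η)) = e0 + ∑ m ∈ Finset.range 9, q x e1 e2 m * η ^ (m + 1) + a * η ^ 10 ∧
      ν * (x / 4) * F 1 (x * (1 - η)) =
        ∑ m ∈ Finset.range 10, (m + 1) * q x e1 e2 m * η ^ m + b * η ^ 10 := by
  have b0 : |x| ≤ 16 := by rw [abs_of_nonneg hx0]; linarith
  have b1 : |x - x * η| ≤ 16 := by rw [abs_le]; constructor <;> nlinarith
  have b2 : |x * η| ≤ 14.7 * η := by rw [abs_of_nonneg (by positivity)]; gcongr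
  have p := pow_pos h0 10
  obtain ⟨a, ha, ea⟩ := rem_ex (c := 3 / 1000000) h0 hν ((taylor16 10 0 b0 b1 b2).trans (by
    rw [div_pow, mul_pow]; norm_num [Nat.factorial]; linarith))
  obtain ⟨b, hb, eb⟩ := rem_ex (ν := ν * (x / 16)) (c := 3 / 4000000) h0
    (by rw [abs_mul, abs_of_nonneg (by positivity : 0 ≤ x / 16)]; nlinarith [abs_nonneg ν])
    ((taylor16 10 1 b0 b1 b2).trans (by
      rw [div_pow, mul_pow]; norm_num [Nat.factorial]; linarith))
  subst he0 he1 he2
  refine ⟨a, 4 * b, ha, by rw [abs_mul]; norm_num; linarith, ?_, ?_⟩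
  · simp only [q_eq]
    rw [mul_sub x, mul_one]
    simp only [Finset.sum_range_succ, Finset.range_zero, Finset.sum_empty] at ea ⊢
    norm_num [Nat.factorial] at ea ⊢
    linear_combination ea
  · simp only [q_eq]
    rw [mul_sub x, mul_one]
    simp only [Finset.sum_range_succ, Finset.range_zero, Finset.sum_empty] at eb ⊢
    norm_num [Nat.factorial] at eb ⊢
    linear_combination 4 * eb

theorem cal : CalStmt := by
  obtain ⟨L, L1, L2, hL, L0⟩ := exists_L
  obtain ⟨l, l1, l2, hl, l0⟩ := exists_l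
  have a0 : F 0 L ≠ 0 := by intro h; rw [h] at L0; norm_num at L0
  have b0 : 0 < F 1 l := by linarith
  have Lp : 0 < L := by linarith
  have lp : 0 < l := by linarith
  have dF : ∀ (n : ℕ) (c s : ℝ), HasDerivAt (fun s => F n (c * s))
      (-(1 / 4) * F (n + 1) (c * s) * c) s := fun n c s =>
    ((hasDerivAt_F n (c * s)).comp s ((hasDerivAt_id s).const_mul c)).congr_deriv (by ring)
  have cF : ∀ (n : ℕ) (c : ℝ), ContDiff ℝ 1 fun s => F n (c * s) := fun n c =>
    (contDiff_F_nat 1 n).comp (contDiff_const.mul contDiff_id)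
  have o : Ode L l (fun s => (1 - F 0 (L * s) / F 0 L) / L) (fun s => F 1 (L * s) / (4 * F 0 L))
      (fun s => -L * F 2 (L * s) / (16 * F 0 L)) (fun s => F 0 (L * s) / F 0 L)
      (fun s => 2 * F 0 (l * s) / (l * F 1 l)) (fun s => -F 1 (l * s) / (2 * F 1 l))
      (fun s => l * F 2 (l * s) / (8 * F 1 l)) := by
    refine ⟨fun s => ((((dF 0 L s).div_const _).const_sub 1).div_const L).congr_deriv ?_,
      fun s => ((dF 1 L s).div_const _).congr_deriv ?_,
      fun s => ((dF 0 L s).div_const _).congr_deriv ?_,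
      fun s => (((dF 0 l s).const_mul 2).div_const _).congr_deriv ?_,
      fun s => ((dF 1 l s).fun_neg.div_const _).congr_deriv ?_, fun s => ?_, fun s => ?_,
      (contDiff_const.sub ((cF 0 L).div_const _)).div_const _, (cF 1 L).div_const _,
      (cF 0 L).div_const _, (contDiff_const.mul (cF 0 l)).div_const _,
      (cF 1 l).neg.div_const _, fun s hs => ?_⟩
    · field_simp
    · field_simp; ring
    · field_simp
    · field_simp; norm_num
    · field_simp; ring
    · rw [F_rec 0 (L * s)]; field_simp; ring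
    · rw [F_rec 0 (l * s)]; field_simp; ring
    obtain ⟨η, rfl⟩ : ∃ η, s = 1 - η := ⟨1 - s, by ring⟩
    have h0 : 0 < η := by linarith [hs.2]
    have h1 : η ≤ 9 / 8 := by linarith [hs.1]
    have r1 := F_rec 0 L
    have r2 := F_rec 0 l
    obtain ⟨a, b, ha, hb, ea, eb⟩ := tay (x := L) (ν := -1 / (L * F 0 L)) (e0 := -1 / L) (e1 := 0)
      (e2 := 1 / 8) Lp.le (by linarith) (by
        rw [abs_div, abs_neg, abs_one, div_le_one (abs_pos.2 (mul_ne_zero Lp.ne' a0)), le_abs]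
        right; nlinarith) h0 h1 (by field_simp) (by rw [hL]; ring) (by
        have : F 2 L = -4 * F 0 L / L := by
          rw [hL] at r1; field_simp; linarith
        rw [this]; field_simp; norm_num)
    obtain ⟨c, d, hc, hd, ec, ed⟩ := tay (x := l) (ν := 2 / (l * F 1 l)) (e0 := 0) (e1 := 1 / 2)
      (e2 := 1 / 4) lp.le (by linarith) (by
        rw [abs_of_pos (by positivity), div_le_one (by positivity)]; nlinarith) h0 h1
        (by rw [hl]; ring) (by field_simp; norm_num) (by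
        have : F 2 l = 4 * F 1 l / l := by
          rw [hl] at r2; field_simp; linarith
        rw [this]; field_simp)
    let w : Dat := ⟨L, l, η, a, b, c, d⟩
    have ok : w.Ok := ⟨by rw [abs_le]; constructor <;> simp only [w] <;> linarith,
      by rw [abs_le]; constructor <;> simp only [w] <;> linarith, h0.le, h1, ha, hb, hc, hd⟩
    have i := w.ineq ok h0
    have q0 : ∀ x y z : ℝ, q x y z 0 = y := fun _ _ _ => rfl
    have q1 : ∀ x y z : ℝ, q x y z 1 = z := fun _ _ _ => rfl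
    have qu : q L 0 (1 / 8) 2 = 1 / 12 := (q2 _ _ _ 0).trans (by rw [q0, q1]; norm_num)
    have qy : q l (1 / 2) (1 / 4) 2 = 1 / 6 - l / 48 :=
      (q2 _ _ _ 0).trans (by rw [q0, q1]; push_cast; ring)
    simp only [Finset.sum_range_succ, Finset.range_zero, Finset.sum_empty, q0, q1] at ea eb ec ed
    have e1 : (1 - F 0 (L * (1 - η)) / F 0 L) / L = w.η ^ 2 * w.uu := by
      simp only [Dat.uu, Dat.uu1, Dat.U2, w]
      have : (1 - F 0 (L * (1 - η)) / F 0 L) / L =
        -1 / (L * F 0 L) * F 0 (L * (1 - η)) - -1 / L := by field_simp; ring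
      rw [this, ea, qu]; ring
    have e2 : F 1 (L * (1 - η)) / (4 * F 0 L) = -w.η * w.vv := by
      simp only [Dat.vv, Dat.vv1, Dat.U1, w]
      have : F 1 (L * (1 - η)) / (4 * F 0 L) =
        -(-1 / (L * F 0 L) * (L / 4) * F 1 (L * (1 - η))) := by field_simp
      rw [this, eb, qu]; push_cast; ring
    have e3 : F 0 (L * (1 - η)) / F 0 L = 1 - w.L * (w.η ^ 2 * w.uu) := by
      rw [← e1]; simp only [w]; field_simp; ring
    have e4 : 2 * F 0 (l * (1 - η)) / (l * F 1 l) = w.η * w.yy := by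
      simp only [Dat.yy, Dat.yy1, Dat.Y2, w]
      have : 2 * F 0 (l * (1 - η)) / (l * F 1 l) = 2 / (l * F 1 l) * F 0 (l * (1 - η)) := by ring
      rw [this, ec]; ring
    have e5 : -F 1 (l * (1 - η)) / (2 * F 1 l) = -w.ww := by
      simp only [Dat.ww, Dat.ww1, Dat.w2, Dat.Y1, w]
      have : -F 1 (l * (1 - η)) / (2 * F 1 l) =
        -(2 / (l * F 1 l) * (l / 4) * F 1 (l * (1 - η))) := by field_simp; norm_num
      rw [this, ed, qy]; push_cast; ring
    rw [e1, e2, e3, e4, e5]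
    exact i
  obtain ⟨y, φ, ψ, hc⟩ := o.cal lp.le
  refine ⟨L, l, y, φ, ψ, Lp, hL, a0, lp, fun x x0 x1 => ?_, hc⟩
  have h := (o.iq (x / l) ⟨by have := div_nonneg x0 lp.le; linarith, (div_lt_one lp).2 x1⟩).Y0
  rw [mul_div_cancel₀ x lp.ne', div_pos_iff_of_pos_right (mul_pos lp b0)] at h
  linarith

end Pool.Agent.MP_3d716e_an.H63
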