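import Pool.Agent.MP_3d716e_an.H83.Main
import Pool.Agent.MP_3d716e_an.H63.Bes

/-! Statements of the modules of the proof of the buckling inequality. -/

set_option autoImplicit false
open MeasureTheory Set Real
open Pool.Agent.MP_3d716e_an.H83

namespace Pool.Agent.MP_3d716e_an.H63

/-- Calibration data: three functions of `z = R^2 |grad f|^2 / f^2`. -/
structure Cal (L l : ℝ) (y φ ψ : ℝ → ℝ) : Prop where
  l0 : 0 ≤ l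
  cy : ∀ z, 0 ≤ z → ContDiffAt ℝ 1 y z
  cφ : ∀ z, 0 ≤ z → ContDiffAt ℝ 1 φ z
  cψ : ∀ z, 0 ≤ z → ContDiffAt ℝ 1 ψ z
  ypos : ∀ z, 0 ≤ z → 0 ≤ y z
  b1 : ∀ z, 0 ≤ z → 4 * z * deriv y z ^ 2 ≤ 1
  bd : ∃ K : ℝ, ∀ z, 0 ≤ z → |φ z| ≤ K ∧ ψ z ^ 2 * z ≤ K ∧ |y z - 2 * z * deriv y z| ≤ K
  key : ∀ z, 0 ≤ z → ∀ A B C : ℝ,
    0 ≤ (A + C) ^ 2 - 2 * (A * C - B ^ 2) - L * z
      + (φ z * (A + C) + (φ z - 2 * z * deriv φ z) * z + 2 * deriv φ z * (z * A))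
      + ((2 * ψ z + 2 * z * deriv ψ z) * (A * C - B ^ 2) - 2 * z * deriv ψ z * (z * C))
      - ((y z - 2 * z * deriv y z) ^ 2 * z
          + 4 * (y z - 2 * z * deriv y z) * deriv y z * (z * A)
          + 4 * deriv y z ^ 2 * (z * (A ^ 2 + B ^ 2)))
      + l * y z ^ 2

/-- Faber-Krahn inequality with constant `l`. -/
def FK (l : ℝ) : Prop :=
  ∀ f : P → ℝ, ContDiff ℝ 1 f → HasCompactSupport f → ∀ R : ℝ, 0 < R → mu f 0 ≤ π * R ^ 2 →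
    l * ∫ p in U f 0, f p ^ 2 ≤ R ^ 2 * ∫ p, g2 f p

/-- Sharp Faber-Krahn inequality. -/
def FKStmt : Prop := ∀ l : ℝ, 0 < l → (∀ x, 0 ≤ x → x < l → 0 < F 0 x) → FK l

/-- Squared Frobenius norm of the Hessian. -/
noncomputable def hess2 (f : P → ℝ) (p : P) : ℝ :=
  dx (dx f) p ^ 2 + 2 * dy (dx f) p ^ 2 + dy (dy f) p ^ 2

noncomputable def zf (R : ℝ) (f : P → ℝ) (p : P) : ℝ := R ^ 2 * g2 f p / f p ^ 2

/-- The two first order derivatives of `f * y (zf R f)` where `f` does not vanish. -/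
noncomputable def Yx (R : ℝ) (y : ℝ → ℝ) (f : P → ℝ) (p : P) : ℝ :=
  (y (zf R f p) - 2 * zf R f p * deriv y (zf R f p)) * dx f p +
    2 * R ^ 2 * deriv y (zf R f p) / f p * (dx (dx f) p * dx f p + dy (dx f) p * dy f p)

noncomputable def Yy (R : ℝ) (y : ℝ → ℝ) (f : P → ℝ) (p : P) : ℝ :=
  (y (zf R f p) - 2 * zf R f p * deriv y (zf R f p)) * dy f p +
    2 * R ^ 2 * deriv y (zf R f p) / f p * (dy (dx f) p * dx f p + dy (dy f) p * dy f p)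

open Classical in
noncomputable def Psi (R l : ℝ) (y : ℝ → ℝ) (f : P → ℝ) (p : P) : ℝ :=
  if f p = 0 then R ^ 4 * hess2 f p
  else R ^ 2 * (Yx R y f p ^ 2 + Yy R y f p ^ 2) - l * (f p * y (zf R f p)) ^ 2

/-- The Faber-Krahn inequality applied to `|f| * y (zf R f)`. -/
def PsiStmt : Prop :=
  ∀ (L l : ℝ) (y φ ψ : ℝ → ℝ), Cal L l y φ ψ → FK l →
    ∀ f : P → ℝ, ContDiff ℝ 3 f → HasCompactSupport f → ∀ R : ℝ, 0 < R →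
      volume.real (tsupport f) ≤ π * R ^ 2 →
      Integrable (Psi R l y f) ∧ 0 ≤ ∫ p, Psi R l y f p

/-- The divergence terms integrate to zero. -/
def DivStmt : Prop :=
  ∀ (L l : ℝ) (y φ ψ : ℝ → ℝ), Cal L l y φ ψ →
    ∀ f : P → ℝ, ContDiff ℝ 3 f → HasCompactSupport f → ∀ R : ℝ, 0 < R →
      Integrable (Psi R l y f) →
      ∫ p, Psi R l y f p ≤ ∫ p, (R ^ 4 * hess2 f p - R ^ 2 * L * g2 f p)

/-- Integration of the calibration. -/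
def IntStmt : Prop :=
  ∀ (L l : ℝ) (y φ ψ : ℝ → ℝ), Cal L l y φ ψ → FK l →
    ∀ f : P → ℝ, ContDiff ℝ 3 f → HasCompactSupport f → ∀ R : ℝ, 0 < R →
      volume.real (tsupport f) ≤ π * R ^ 2 →
      L * ∫ p, g2 f p ≤ R ^ 2 * ∫ p, (dx (dx f) p + dy (dy f) p) ^ 2

/-- Test functions on the disc. -/
def UpStmt : Prop :=
  ∀ L : ℝ, 0 < L → F 1 L = 0 → F 0 L ≠ 0 → ∀ r : ℝ, 0 < r → ∀ ε : ℝ, 0 < ε →
    ∃ u : EuclideanSpace ℝ (Fin 2) → ℝ, ContDiff ℝ (⊤ : ℕ∞) u ∧ HasCompactSupport u ∧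
      tsupport u ⊆ Metric.ball (0 : EuclideanSpace ℝ (Fin 2)) r ∧ u ≠ 0 ∧
      (∫ x, (∑ i : Fin 2, iteratedFDeriv ℝ 2 u x (fun _ => EuclideanSpace.single i (1 : ℝ))) ^ 2) /
        (∫ x, ‖fderiv ℝ u x‖ ^ 2) ≤ L / r ^ 2 + ε

/-- Existence of the calibration. -/
def CalStmt : Prop :=
  ∃ (L l : ℝ) (y φ ψ : ℝ → ℝ), 0 < L ∧ F 1 L = 0 ∧ F 0 L ≠ 0 ∧ 0 < l ∧
    (∀ x, 0 ≤ x → x < l → 0 < F 0 x) ∧ Cal L l y φ ψ

end Pool.Agent.MP_3d716e_an.H63
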