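import Mathlib

/-! Fixed point polynomial enclosures in one variable `t ∈ [-1, 1]`. -/

set_option autoImplicit false

namespace Pool.Agent.MP_3d716e_an.H63

def ev : List ℤ → ℝ → ℝ
  | [], _ => 0
  | a :: p, t => a + t * ev p t

def padd : List ℤ → List ℤ → List ℤ
  | [], q => q
  | a :: p, [] => a :: p
  | a :: p, b :: q => (a + b) :: padd p q

def psm (a : ℤ) : List ℤ → List ℤ
  | [] => []
  | b :: q => (a * b) :: psm a q

def pmul : List ℤ → List ℤ → List ℤ
  | [], _ => []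
  | a :: p, q => padd (psm a q) (0 :: pmul p q)

def nrm : List ℤ → ℤ
  | [] => 0
  | a :: p => |a| + nrm p

def ngs : List ℤ → ℤ
  | [] => 0
  | a :: p => max (-a) 0 + ngs p

def SS : ℤ := 10000000000

def rnd : ℕ → List ℤ → List ℤ
  | 0, _ => []
  | _ + 1, [] => []
  | k + 1, a :: p => (a / SS) :: rnd k p

lemma ev_padd (t : ℝ) : ∀ p q, ev (padd p q) t = ev p t + ev q t
  | [], q => by simp [padd, ev]
  | a :: p, [] => by simp [padd, ev]
  | a :: p, b :: q => by simp only [padd, ev, ev_padd t p q]; push_cast; ring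

lemma ev_psm (t : ℝ) (a : ℤ) : ∀ q, ev (psm a q) t = a * ev q t
  | [] => by simp [psm, ev]
  | b :: q => by simp only [psm, ev, ev_psm t a q]; push_cast; ring

lemma ev_pmul (t : ℝ) : ∀ p q, ev (pmul p q) t = ev p t * ev q t
  | [], q => by simp [pmul, ev]
  | a :: p, q => by simp only [pmul, ev_padd, ev_psm, ev, ev_pmul t p q]; push_cast; ring

lemma abs_ev_le {t : ℝ} (ht : |t| ≤ 1) : ∀ p, |ev p t| ≤ nrm p
  | [] => by simp [ev, nrm]
  | a :: p => by
    have h := abs_ev_le ht p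
    have h1 := abs_add_le (a : ℝ) (t * ev p t)
    have h2 : |t * ev p t| ≤ |ev p t| := by
      rw [abs_mul]; exact mul_le_of_le_one_left (abs_nonneg _) ht
    simp only [ev, nrm]
    push_cast
    linarith

/-- A polynomial and an error bound, both scaled by `SS`. -/
abbrev TM := List ℤ × ℤ

def Encl (t x : ℝ) (T : TM) : Prop := |(SS : ℝ) * x - ev T.1 t| ≤ T.2

def tadd (A B : TM) : TM := (padd A.1 B.1, A.2 + B.2)
def tneg (A : TM) : TM := (psm (-1) A.1, A.2)
def tcon (n d : ℕ) : TM := ([n * SS / d], 1)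
def tmul (A B : TM) : TM :=
  (rnd 10 (pmul A.1 B.1), (nrm A.1 * B.2 + nrm B.1 * A.2 + A.2 * B.2 +
    nrm (padd (pmul A.1 B.1) (psm (-SS) (rnd 10 (pmul A.1 B.1))))) / SS + 1)
def tpos (A : TM) : Bool := decide (ngs A.1.tail + A.2 < A.1.headD 0)
def tle (A B : TM) : Bool := decide (nrm (padd A.1 (psm (-1) B.1)) + A.2 ≤ B.2)

lemma SS_pos : (0 : ℝ) < (SS : ℝ) := by norm_num [SS]

section
variable {t x y : ℝ} {A B : TM}

lemma Encl.add (h1 : Encl t x A) (h2 : Encl t y B) : Encl t (x + y) (tadd A B) := by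
  unfold Encl at *
  simp only [tadd, ev_padd]
  push_cast
  rw [abs_le] at *
  constructor <;> linarith [h1.1, h1.2, h2.1, h2.2]

lemma Encl.neg (h1 : Encl t x A) : Encl t (-x) (tneg A) := by
  unfold Encl at *
  simp only [tneg, ev_psm]
  push_cast
  rw [abs_le] at *
  constructor <;> linarith [h1.1, h1.2]

lemma div_bd (a b : ℤ) (hb : 0 < b) :
    ((a / b : ℤ) : ℝ) ≤ (a : ℝ) / b ∧ (a : ℝ) / b ≤ ((a / b : ℤ) : ℝ) + 1 := by
  have hb' : (0 : ℝ) < b := by exact_mod_cast hb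
  have h1 : ((a / b * b : ℤ) : ℝ) ≤ a := by exact_mod_cast Int.ediv_mul_le a hb.ne'
  have h2 : (a : ℝ) < ((a / b + 1) * b : ℤ) := by exact_mod_cast Int.lt_ediv_add_one_mul_self a hb
  push_cast at h1 h2
  exact ⟨(le_div_iff₀ hb').2 h1, (div_le_iff₀ hb').2 h2.le⟩

lemma Encl.con (n d : ℕ) : Encl t ((n : ℝ) / d) (tcon n d) := by
  rcases d.eq_zero_or_pos with rfl | hd
  · simp [Encl, tcon, ev]
  have h := div_bd (n * SS) d (by exact_mod_cast hd)
  unfold Encl
  simp only [tcon, ev]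
  have e : (SS : ℝ) * (n / d) = ((n * SS : ℤ) : ℝ) / ((d : ℤ) : ℝ) := by push_cast; ring
  rw [e, abs_le]
  constructor <;> push_cast at * <;> linarith [h.1, h.2]

lemma Encl.mul (ht : |t| ≤ 1) (h1 : Encl t x A) (h2 : Encl t y B) : Encl t (x * y) (tmul A B) := by
  unfold Encl at *
  simp only [tmul]
  set r := rnd 10 (pmul A.1 B.1)
  have h3 := abs_ev_le ht (padd (pmul A.1 B.1) (psm (-SS) r))
  rw [ev_padd, ev_psm, ev_pmul] at h3
  have h4 := abs_ev_le ht A.1
  have h5 := abs_ev_le ht B.1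
  have h6 := (div_bd (nrm A.1 * B.2 + nrm B.1 * A.2 + A.2 * B.2 +
    nrm (padd (pmul A.1 B.1) (psm (-SS) r))) SS (by norm_num [SS])).2
  have hS := SS_pos
  push_cast at h3 h6 ⊢
  refine le_trans ?_ h6
  rw [le_div_iff₀ hS]
  set a := ev A.1 t
  set b := ev B.1 t
  set u := (SS : ℝ) * x - a with hu
  set v := (SS : ℝ) * y - b with hv
  have e : (SS * (x * y) - ev r t) * SS = a * v + b * u + u * v + (a * b + -SS * ev r t) := by
    rw [hu, hv]; ring
  rw [← abs_of_pos hS, ← abs_mul, abs_of_pos hS, e]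
  have k1 : |a * v| ≤ nrm A.1 * B.2 := by
    rw [abs_mul]; exact mul_le_mul h4 h2 (abs_nonneg _) ((abs_nonneg _).trans h4)
  have k2 : |b * u| ≤ nrm B.1 * A.2 := by
    rw [abs_mul]; exact mul_le_mul h5 h1 (abs_nonneg _) ((abs_nonneg _).trans h5)
  have k3 : |u * v| ≤ A.2 * B.2 := by
    rw [abs_mul]; exact mul_le_mul h1 h2 (abs_nonneg _) ((abs_nonneg _).trans h1)
  rw [abs_le] at *
  constructor <;> linarith [k1.1, k1.2, k2.1, k2.2, k3.1, k3.2, h3.1, h3.2]

lemma ev_ge (h0 : 0 ≤ t) (ht : t ≤ 1) : ∀ p, -(ngs p : ℝ) ≤ ev p t ∧ 0 ≤ (ngs p : ℝ)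
  | [] => by simp [ev, ngs]
  | a :: p => by
    obtain ⟨h1, h2⟩ := ev_ge h0 ht p
    have h3 : ((-a : ℤ) : ℝ) ≤ (max (-a) 0 : ℤ) := by exact_mod_cast le_max_left _ _
    have h4 : ((0 : ℤ) : ℝ) ≤ (max (-a) 0 : ℤ) := by exact_mod_cast le_max_right _ _
    simp only [ev, ngs, Int.cast_add]
    rw [Int.cast_neg] at h3
    rw [Int.cast_zero] at h4
    constructor <;> nlinarith

lemma Encl.pos (h0 : 0 ≤ t) (ht : t ≤ 1) (h1 : Encl t x A) (e : y = x) (h : tpos A = true) :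
    0 < y := by
  obtain ⟨p, d⟩ := A
  unfold Encl at h1
  simp only [tpos, decide_eq_true_eq] at h
  have h' : ((ngs p.tail + d : ℤ) : ℝ) < (p.headD 0 : ℤ) := by exact_mod_cast h
  have k : (p.headD 0 : ℤ) - (ngs p.tail : ℝ) ≤ ev p t := by
    rcases p with _ | ⟨a, p⟩
    · simp [ev, ngs]
    · obtain ⟨h2, h3⟩ := ev_ge h0 ht p
      simp only [ev, List.headD_cons, List.tail_cons]
      nlinarith
  push_cast at h'
  have h5 := (abs_le.1 h1).2
  have h6 := (abs_le.1 h1).1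
  have : 0 < (SS : ℝ) * x := by simp only at h5 h6; linarith
  exact e ▸ (mul_pos_iff_of_pos_left SS_pos).1 this

lemma Encl.sub (h1 : Encl t x A) (h2 : Encl t y B) : Encl t (x - y) (tadd A (tneg B)) := by
  rw [sub_eq_add_neg]; exact h1.add h2.neg

lemma Encl.fin (ht : |t| ≤ 1) (h1 : Encl t x A) (e : y = x) (h : tle A B = true) : Encl t y B := by
  subst e
  unfold Encl at *
  simp only [tle, decide_eq_true_eq] at h
  have h' : ((nrm (padd A.1 (psm (-1) B.1)) + A.2 : ℤ) : ℝ) ≤ B.2 := by exact_mod_cast h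
  have h3 := abs_ev_le ht (padd A.1 (psm (-1) B.1))
  rw [ev_padd, ev_psm] at h3
  push_cast at h' h3
  rw [abs_le] at *
  constructor <;> linarith [h1.1, h1.2, h3.1, h3.2]

end

end Pool.Agent.MP_3d716e_an.H63
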